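import Pool.Agent.H949.FG.Defs

set_option autoImplicit false

open MeasureTheory ProbabilityTheory
open scoped ENNReal

namespace H949.FG

theorem coin_map_not : coin.map (fun b : Bool => !b) = coin := by
  have hm : Measurable (fun b : Bool => !b) := measurable_of_countable _
  unfold coin
  rw [Measure.map_smul, Measure.map_add _ _ hm, Measure.map_dirac' hm, Measure.map_dirac' hm,
    Bool.not_true, Bool.not_false, add_comm]

theorem pairLaw_map_not : pairLaw.map (fun p : ℝ × Bool => (p.1, !p.2)) = pairLaw := by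
  have hm : Measurable (fun b : Bool => !b) := measurable_of_countable _
  have h1 : (fun p : ℝ × Bool => (p.1, !p.2)) = Prod.map id (fun b : Bool => !b) := rfl
  unfold pairLaw
  rw [h1, ← Measure.map_prod_map _ _ measurable_id hm, Measure.map_id, coin_map_not]

/-- The law of a walker is invariant under reflection. PROOF. `mir` acts coordinatewise:
`Measure.infinitePi_map_pi`; and `pairLaw.map (fun p => (p.1, !p.2)) = pairLaw` (`Measure.map_prod_map`,
`coin.map not = coin`). -/
theorem map_mir : walkLaw.map mir = walkLaw := by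
  have hm : Measurable (fun p : ℝ × Bool => (p.1, !p.2)) :=
    measurable_fst.prodMk ((measurable_of_countable fun b : Bool => !b).comp measurable_snd)
  have h := Measure.infinitePi_map_pi (μ := fun _ : ℕ => pairLaw)
    (f := fun (_ : ℕ) (p : ℝ × Bool) => (p.1, !p.2)) (fun _ => hm)
  have h1 : (fun (x : ℕ → ℝ × Bool) (i : ℕ) => ((x i).1, !(x i).2)) = mir := rfl
  rw [h1] at h
  unfold walkLaw
  rw [h]
  congr 1
  funext i
  exact pairLaw_map_not

theorem exp_pos_ae : ∀ᵐ x ∂(expMeasure 1), 0 < x := by
  rw [ae_iff]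
  have h1 : {x : ℝ | ¬ 0 < x} = Set.Iic 0 := by
    ext x
    simp
  have h2 : cdf (expMeasure 1) 0 = 0 := by
    rw [cdf_expMeasure_eq one_pos]
    simp
  rw [h1, ← ofReal_cdf (expMeasure 1) 0, h2, ENNReal.ofReal_zero]

theorem pair_pos_ae : ∀ᵐ p ∂pairLaw, 0 < p.1 := by
  have h1 : pairLaw.map Prod.fst = expMeasure 1 := by
    unfold pairLaw
    rw [Measure.map_fst_prod, measure_univ, one_smul]
  have h2 : ∀ᵐ x ∂(pairLaw.map Prod.fst), 0 < x := by
    rw [h1]
    exact exp_pos_ae
  exact ae_of_ae_map measurable_fst.aemeasurable h2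

/-- The holding times are positive. PROOF. `Measure.infinitePi_map_eval` (or
`measurePreserving_eval_infinitePi`), `ae_all_iff`; the exponential law has no mass on `(-∞, 0]`
(`cdf_expMeasure_eq` at `0`). -/
theorem walk_posTime : ∀ᵐ w ∂walkLaw, ∀ i, 0 < (w i).1 := by
  rw [ae_all_iff]
  intro i
  have h1 : walkLaw.map (fun w => w i) = pairLaw := Measure.infinitePi_map_eval _ i
  have h2 : ∀ᵐ p ∂(walkLaw.map (fun w => w i)), 0 < p.1 := by
    rw [h1]
    exact pair_pos_ae
  exact ae_of_ae_map (measurable_pi_apply i).aemeasurable h2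

theorem sys_posTime : ∀ᵐ w ∂sysLaw, ∀ j i, 0 < (w j i).1 := by
  rw [ae_all_iff]
  intro j
  have h1 : sysLaw.map (fun w => w j) = walkLaw := Measure.infinitePi_map_eval _ j
  have h2 : ∀ᵐ w ∂(sysLaw.map (fun w => w j)), ∀ i, 0 < (w i).1 := by
    rw [h1]
    exact walk_posTime
  exact ae_of_ae_map (measurable_pi_apply j).aemeasurable h2

end H949.FG
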