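import Pool.Agent.H949.FG.Defs

set_option autoImplicit false

open MeasureTheory ProbabilityTheory
open scoped ENNReal

namespace H949.FG

/-- The mean of `exp (-lam ξ)` for the exponential law. -/
theorem ch_exp {lam : ℝ} (hl : 0 < lam) :
    ∫⁻ x, ENNReal.ofReal (Real.exp (-(lam * x))) ∂(expMeasure 1) =
      ENNReal.ofReal (1 / (1 + lam)) := by
  have h1 : expMeasure 1 = (volume : Measure ℝ).withDensity (exponentialPDF 1) := rfl
  have hm : ∀ r : ℝ, Measurable (exponentialPDF r) := fun r =>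
    (measurable_exponentialPDFReal r).ennreal_ofReal
  rw [h1, lintegral_withDensity_eq_lintegral_mul _ (hm 1) (by fun_prop)]
  have h2 : ∀ x : ℝ, (exponentialPDF 1 * fun x => ENNReal.ofReal (Real.exp (-(lam * x)))) x =
      ENNReal.ofReal (1 / (1 + lam)) * exponentialPDF (1 + lam) x := by
    intro x
    simp only [Pi.mul_apply, exponentialPDF_eq]
    rw [← ENNReal.ofReal_mul' (Real.exp_pos _).le, ← ENNReal.ofReal_mul (by positivity)]
    congr 1
    split_ifs
    · rw [one_mul, one_mul, ← Real.exp_add, ← mul_assoc, one_div,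
        inv_mul_cancel₀ (by positivity), one_mul]
      congr 1
      ring
    · simp
  simp_rw [h2]
  rw [lintegral_const_mul _ (hm _), lintegral_exponentialPDF_eq_one (by linarith), mul_one]

/-- The mean of `exp (-θ stp b)` for the coin. -/
theorem ch_coin (θ : ℝ) :
    ∫⁻ b, ENNReal.ofReal (Real.exp (-(θ * (stp b : ℝ)))) ∂coin = ENNReal.ofReal (Real.cosh θ) := by
  unfold coin
  rw [lintegral_smul_measure, lintegral_add_measure, lintegral_dirac, lintegral_dirac]
  simp only [stp, if_true, smul_eq_mul]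
  have h2 : (2 : ℝ≥0∞)⁻¹ = ENNReal.ofReal (1 / 2) := by
    rw [one_div, ENNReal.ofReal_inv_of_pos (by norm_num)]
    simp
  rw [h2, ← ENNReal.ofReal_add (Real.exp_pos _).le (Real.exp_pos _).le,
    ← ENNReal.ofReal_mul (by norm_num)]
  congr 1
  rw [Real.cosh_eq]
  simp
  ring

/-- The product over the first `n` pairs. -/
theorem ch_prod {θ lam : ℝ} (hl : 0 < lam) (n : ℕ) :
    ∫⁻ w : Walk, ENNReal.ofReal (Real.exp (-(θ * (pos w n : ℝ)) - lam * tim w n)) ∂walkLaw =
      ENNReal.ofReal (Real.cosh θ / (1 + lam)) ^ n := by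
  set g : ℝ × Bool → ℝ≥0∞ := fun p => ENNReal.ofReal (Real.exp (-(lam * p.1))) *
    ENNReal.ofReal (Real.exp (-(θ * (stp p.2 : ℝ)))) with hg
  have hm2 : Measurable fun b : Bool => ENNReal.ofReal (Real.exp (-(θ * (stp b : ℝ)))) :=
    measurable_of_countable _
  have hm1 : Measurable fun x : ℝ => ENNReal.ofReal (Real.exp (-(lam * x))) := by fun_prop
  have hgm : Measurable g := (hm1.comp measurable_fst).mul (hm2.comp measurable_snd)
  have h1 : ∫⁻ p, g p ∂pairLaw = ENNReal.ofReal (Real.cosh θ / (1 + lam)) := by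
    unfold pairLaw
    rw [hg, lintegral_prod_mul hm1.aemeasurable hm2.aemeasurable, ch_exp hl, ch_coin,
      ← ENNReal.ofReal_mul (by positivity)]
    congr 1
    ring
  have h2 : ∀ w : Walk, ENNReal.ofReal (Real.exp (-(θ * (pos w n : ℝ)) - lam * tim w n)) =
      ∏ i ∈ Finset.range n, g (w i) := by
    intro w
    induction n with
    | zero => simp
    | succ n ih =>
      rw [Finset.prod_range_succ, ← ih, hg]
      simp only
      rw [← ENNReal.ofReal_mul (Real.exp_pos _).le, ← ENNReal.ofReal_mul (Real.exp_pos _).le,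
        ← Real.exp_add, ← Real.exp_add, pos_succ, tim_succ]
      congr 2
      push_cast
      ring
  have hind : iIndepFun (fun (i : ℕ) (w : Walk) => g (w i)) walkLaw :=
    iIndepFun_infinitePi (P := fun _ : ℕ => pairLaw) (X := fun _ => g) fun _ => hgm
  simp_rw [h2]
  rw [lintegral_prod_eq_prod_lintegral_of_indepFun (Finset.range n) _ hind
    fun i => hgm.comp (measurable_pi_apply i)]
  rw [← h1]
  rw [Finset.prod_congr rfl (g := fun _ => ∫⁻ p, g p ∂pairLaw), Finset.prod_const,
    Finset.card_range]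
  intro i _
  have h3 : walkLaw.map (fun w : Walk => w i) = pairLaw := by
    unfold walkLaw
    exact Measure.infinitePi_map_eval (fun _ : ℕ => pairLaw) i
  rw [← h3, lintegral_map hgm (measurable_pi_apply i)]

/-- Chernoff bound. PROOF. Let `lam = 2 (cosh θ - 1) > 0`. If `hit w (-k) ≤ ofReal s` then for some `n`,
`pos w n = -k` and `tim w n ≤ s + 1` (the infimum is `< ofReal (s + 1)`, `iInf_lt_iff`). For fixed `n`, by
independence `∫ exp (-θ pos w n - lam tim w n) = (cosh θ / (1 + lam)) ^ n` (one pair: the mean of `exp (-lam ξ)` for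
the exponential law is `1 / (1 + lam)`, the mean of `exp (-θ stp b)` for the coin is `cosh θ`; product over `i < n` by
independence of the coordinates of `Measure.infinitePi`, e.g. `lintegral` of a product or
`iIndepFun.lintegral_prod`, or induction on `n`). By Markov
`walkLaw {pos w n = -k ∧ tim w n ≤ s + 1} ≤ exp (-θ k + lam (s + 1)) (cosh θ / (1 + lam)) ^ n`, as on this event
`exp (-θ pos - lam tim) ≥ exp (θ k - lam (s + 1))`. The ratio `cosh θ / (1 + lam) = cosh θ / (2 cosh θ - 1)` is less than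
one; sum over `n`. -/
theorem hit_chernoff {θ : ℝ} (hθ : 0 < θ) : ∃ K : ℝ, 0 ≤ K ∧ ∀ (k : ℕ) (s : ℝ), 0 ≤ s →
    walkLaw {w | hit w (-(k : ℤ)) ≤ ENNReal.ofReal s} ≤
      ENNReal.ofReal (K * Real.exp (-(θ * k) + 2 * (Real.cosh θ - 1) * s)) := by
  have hc : 1 < Real.cosh θ := Real.one_lt_cosh.2 hθ.ne'
  set lam : ℝ := 2 * (Real.cosh θ - 1) with hlam
  have hl : 0 < lam := by rw [hlam]; linarith
  set ρ : ℝ := Real.cosh θ / (1 + lam) with hρ
  have hρ0 : 0 ≤ ρ := by positivity
  have hρ1 : ρ < 1 := by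
    rw [hρ, div_lt_one (by linarith)]
    rw [hlam]
    linarith
  refine ⟨Real.exp lam * (1 - ρ)⁻¹, mul_nonneg (Real.exp_pos _).le
    (inv_nonneg.2 (by linarith)), fun k s hs => ?_⟩
  have h1 : {w : Walk | hit w (-(k : ℤ)) ≤ ENNReal.ofReal s} ⊆
      ⋃ n : ℕ, {w : Walk | pos w n = -(k : ℤ) ∧ tim w n ≤ s + 1} := by
    intro w hw
    have hw' : hit w (-(k : ℤ)) < ENNReal.ofReal (s + 1) :=
      lt_of_le_of_lt hw ((ENNReal.ofReal_lt_ofReal_iff (by linarith)).2 (by linarith))
    unfold hit at hw'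
    simp only [iInf_lt_iff] at hw'
    obtain ⟨n, hn, h⟩ := hw'
    refine Set.mem_iUnion.2 ⟨n, hn, ?_⟩
    exact ((ENNReal.ofReal_lt_ofReal_iff (by linarith)).1 h).le
  have h2 : ∀ n : ℕ, walkLaw {w : Walk | pos w n = -(k : ℤ) ∧ tim w n ≤ s + 1} ≤
      ENNReal.ofReal (Real.exp (-(θ * k) + lam * (s + 1)) * ρ ^ n) := by
    intro n
    set f : Walk → ℝ≥0∞ := fun w =>
      ENNReal.ofReal (Real.exp (-(θ * (pos w n : ℝ)) - lam * tim w n)) with hf
    have hfm : Measurable f := by
      have hp : Measurable fun w : Walk => ((pos w n : ℤ) : ℝ) :=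
        (measurable_of_countable (fun z : ℤ => (z : ℝ))).comp (measurable_pos n)
      exact (((hp.const_mul θ).neg.sub ((measurable_tim n).const_mul lam)).exp).ennreal_ofReal
    have h3 : {w : Walk | pos w n = -(k : ℤ) ∧ tim w n ≤ s + 1} ⊆
        {w | ENNReal.ofReal (Real.exp (θ * k - lam * (s + 1))) ≤ f w} := by
      rintro w ⟨hw1, hw2⟩
      refine ENNReal.ofReal_le_ofReal (Real.exp_le_exp.2 ?_)
      rw [hw1]
      push_cast
      nlinarith
    have h4 := mul_meas_ge_le_lintegral (μ := walkLaw) hfm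
      (ENNReal.ofReal (Real.exp (θ * k - lam * (s + 1))))
    rw [hf, ch_prod hl n, ← hρ] at h4
    have h5 : ENNReal.ofReal (Real.exp (-(θ * k) + lam * (s + 1)) * ρ ^ n) =
        ENNReal.ofReal (Real.exp (-(θ * k) + lam * (s + 1))) * ENNReal.ofReal ρ ^ n := by
      rw [ENNReal.ofReal_mul (Real.exp_pos _).le, ENNReal.ofReal_pow hρ0]
    rw [h5]
    refine (measure_mono h3).trans ?_
    calc walkLaw {w | ENNReal.ofReal (Real.exp (θ * k - lam * (s + 1))) ≤ f w}
        = ENNReal.ofReal (Real.exp (-(θ * k) + lam * (s + 1))) *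
          (ENNReal.ofReal (Real.exp (θ * k - lam * (s + 1))) *
            walkLaw {w | ENNReal.ofReal (Real.exp (θ * k - lam * (s + 1))) ≤ f w}) := by
          rw [← mul_assoc, ← ENNReal.ofReal_mul (Real.exp_pos _).le, ← Real.exp_add]
          rw [show -(θ * k) + lam * (s + 1) + (θ * k - lam * (s + 1)) = 0 by ring]
          simp
      _ ≤ _ := mul_le_mul_right h4 _
  calc walkLaw {w : Walk | hit w (-(k : ℤ)) ≤ ENNReal.ofReal s}
      ≤ walkLaw (⋃ n : ℕ, {w : Walk | pos w n = -(k : ℤ) ∧ tim w n ≤ s + 1}) := measure_mono h1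
    _ ≤ ∑' n : ℕ, walkLaw {w : Walk | pos w n = -(k : ℤ) ∧ tim w n ≤ s + 1} :=
        measure_iUnion_le _
    _ ≤ ∑' n : ℕ, ENNReal.ofReal (Real.exp (-(θ * k) + lam * (s + 1)) * ρ ^ n) :=
        ENNReal.tsum_le_tsum h2
    _ = ENNReal.ofReal (∑' n : ℕ, Real.exp (-(θ * k) + lam * (s + 1)) * ρ ^ n) := by
        rw [ENNReal.ofReal_tsum_of_nonneg]
        · intro n
          positivity
        · exact (summable_geometric_of_lt_one hρ0 hρ1).mul_left _
    _ = ENNReal.ofReal (Real.exp lam * (1 - ρ)⁻¹ * Real.exp (-(θ * k) + lam * s)) := by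
        rw [tsum_mul_left, tsum_geometric_of_lt_one hρ0 hρ1]
        congr 1
        rw [show -(θ * k) + lam * (s + 1) = lam + (-(θ * k) + lam * s) by ring, Real.exp_add]
        ring

end H949.FG
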