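import Pool.Agent.H949.FG.Defs

set_option autoImplicit false

open MeasureTheory ProbabilityTheory
open scoped ENNReal

namespace H949.FG

/-- Gluing of the first `a` coordinates and the others. -/
def glue {α : Type*} (a : ℕ) (p : (Fin a → α) × (ℕ → α)) : ℕ → α :=
  fun n => if h : n < a then p.1 ⟨n, h⟩ else p.2 (n - a)

lemma measurable_glue {α : Type*} [MeasurableSpace α] (a : ℕ) :
    Measurable (glue (α := α) a) := by
  refine measurable_pi_lambda _ fun n => ?_
  by_cases h : n < a
  · have e : (fun p : (Fin a → α) × (ℕ → α) => glue a p n) = fun p => p.1 ⟨n, h⟩ := by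
      funext p
      simp [glue, h]
    rw [e]
    exact (measurable_pi_apply _).comp measurable_fst
  · have e : (fun p : (Fin a → α) × (ℕ → α) => glue a p n) = fun p => p.2 (n - a) := by
      funext p
      simp [glue, h]
    rw [e]
    exact (measurable_pi_apply _).comp measurable_snd

lemma map_glue {α : Type*} [MeasurableSpace α] (μ : Measure α) [IsProbabilityMeasure μ] (a : ℕ) :
    ((Measure.pi fun _ : Fin a => μ).prod (Measure.infinitePi fun _ : ℕ => μ)).map (glue a) =
      Measure.infinitePi (fun _ : ℕ => μ) := by
  classical
  refine Measure.eq_infinitePi _ fun s t ht => ?_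
  have hms : MeasurableSet (Set.pi (s : Set ℕ) t) := MeasurableSet.pi s.countable_toSet fun i _ => ht i
  rw [Measure.map_apply (measurable_glue a) hms]
  obtain ⟨s', hs'⟩ : ∃ s' : Finset ℕ, s' = (s.filter (fun n => ¬ n < a)).image (fun n => n - a) :=
    ⟨_, rfl⟩
  have hpre : glue a ⁻¹' (Set.pi (s : Set ℕ) t) =
      (Set.pi Set.univ (fun i : Fin a => if i.1 ∈ s then t i.1 else Set.univ)) ×ˢ
        (Set.pi (s' : Set ℕ) (fun j => t (a + j))) := by
    ext p
    simp only [Set.mem_preimage, Set.mem_pi, Set.mem_prod, Finset.mem_coe, Set.mem_univ,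
      forall_true_left]
    constructor
    · intro h
      constructor
      · intro i
        by_cases hi : i.1 ∈ s
        · rw [if_pos hi]
          have h1 := h i.1 hi
          simp only [glue, i.2, dif_pos] at h1
          exact h1
        · rw [if_neg hi]
          exact Set.mem_univ _
      · intro j hj
        rw [hs', Finset.mem_image] at hj
        obtain ⟨n, hn, rfl⟩ := hj
        rw [Finset.mem_filter] at hn
        have h1 := h n hn.1
        simp only [glue, hn.2, dif_neg, not_false_eq_true] at h1
        have e : a + (n - a) = n := by omega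
        rw [e]
        exact h1
    · rintro ⟨h1, h2⟩ n hn
      by_cases hna : n < a
      · have h3 := h1 ⟨n, hna⟩
        simp only [hn, if_true] at h3
        simp only [glue, hna, dif_pos]
        exact h3
      · have h3 := h2 (n - a) (by
          rw [hs', Finset.mem_image]
          exact ⟨n, Finset.mem_filter.2 ⟨hn, hna⟩, rfl⟩)
        have e : a + (n - a) = n := by omega
        rw [e] at h3
        simp only [glue, hna, dif_neg, not_false_eq_true]
        exact h3
  rw [hpre, Measure.prod_prod, Measure.pi_pi, Measure.infinitePi_pi]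
  · have h1 : ∏ i : Fin a, μ (if i.1 ∈ s then t i.1 else Set.univ) =
        ∏ n ∈ s.filter (fun n => n < a), μ (t n) := by
      rw [Fin.prod_univ_eq_prod_range (fun n => μ (if n ∈ s then t n else Set.univ)) a]
      have h2 : ∀ n ∈ Finset.range a, μ (if n ∈ s then t n else Set.univ) =
          if n ∈ s then μ (t n) else 1 := by
        intro n _
        by_cases hn : n ∈ s
        · rw [if_pos hn, if_pos hn]
        · rw [if_neg hn, if_neg hn, measure_univ]
      rw [Finset.prod_congr rfl h2, ← Finset.prod_filter]
      refine Finset.prod_congr ?_ fun _ _ => rfl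
      ext n
      simp only [Finset.mem_filter, Finset.mem_range]
      exact and_comm
    have h2 : ∏ j ∈ s', μ (t (a + j)) = ∏ n ∈ s.filter (fun n => ¬ n < a), μ (t n) := by
      rw [hs', Finset.prod_image]
      · refine Finset.prod_congr rfl fun n hn => ?_
        rw [Finset.mem_filter] at hn
        have e : a + (n - a) = n := by omega
        rw [e]
      · intro n hn m hm h
        rw [Finset.mem_coe, Finset.mem_filter] at hn hm
        have h' : n - a = m - a := h
        omega
    rw [h1, h2]
    exact Finset.prod_filter_mul_prod_filter_not s (fun n => n < a) (fun n => μ (t n))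
  · intro j _
    exact ht _

/-- Independence of the first `a` coordinates and the others, and shift invariance, for an i.i.d. sequence. PROOF. Induction on
`a`, or: the coordinates are independent (`iIndepFun_infinitePi`), so the restriction to `i < a` and the restriction to
`i ≥ a` are independent (`Kernel`/`indep_iSup_of_disjoint`, or a pi-system argument with `Measure.eq_infinitePi`), and the shifted
sequence has the same law (`iIndepFun.map_fun_eq_infinitePi_map`). One convenient way: let `ν` be the image of
`(Measure.pi (fun _ : Fin a => μ)).prod (Measure.infinitePi fun _ : ℕ => μ)` under the map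
`(x, v) ↦ fun n => if h : n < a then x ⟨n, h⟩ else v (n - a)`; show `ν = Measure.infinitePi` by `Measure.eq_infinitePi` and then evaluate
`ν` at the event (its preimage is a rectangle `Set.pi univ (fun i => A i) ×ˢ B`). -/
theorem split_gen {α : Type*} [MeasurableSpace α] (μ : Measure α) [IsProbabilityMeasure μ] (a : ℕ)
    (A : ℕ → Set α) (hA : ∀ y, MeasurableSet (A y)) (B : Set (ℕ → α)) (hB : MeasurableSet B) :
    Measure.infinitePi (fun _ : ℕ => μ) {w | (∀ y < a, w y ∈ A y) ∧ (fun j => w (a + j)) ∈ B} =
      (∏ y ∈ Finset.range a, μ (A y)) * Measure.infinitePi (fun _ : ℕ => μ) B := by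
  rw [← map_glue μ a, Measure.map_apply (measurable_glue a)]
  · have hpre : glue a ⁻¹' {w : ℕ → α | (∀ y < a, w y ∈ A y) ∧ (fun j => w (a + j)) ∈ B} =
        (Set.pi Set.univ (fun i : Fin a => A i.1)) ×ˢ B := by
      ext p
      have e2 : (fun j => glue a p (a + j)) = p.2 := by
        funext j
        have h1 : ¬ a + j < a := by omega
        have h2 : a + j - a = j := by omega
        simp only [glue, h1, dif_neg, not_false_eq_true, h2]
      have e1 : ∀ i : Fin a, glue a p i.1 = p.1 i := by
        intro i
        simp only [glue, i.2, dif_pos]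
      simp only [Set.mem_preimage, Set.mem_ofPred_eq, Set.mem_prod, Set.mem_pi, Set.mem_univ,
        forall_true_left, e2]
      refine and_congr_left fun _ => ?_
      constructor
      · intro h i
        have h1 := h i.1 i.2
        rw [e1] at h1
        exact h1
      · intro h y hy
        have h1 := h ⟨y, hy⟩
        have h2 := e1 ⟨y, hy⟩
        rw [h2]
        exact h1
    rw [hpre, Measure.prod_prod, Measure.pi_pi,
      Fin.prod_univ_eq_prod_range (fun y => μ (A y)) a, map_glue μ a]
  · have h1 : MeasurableSet {w : ℕ → α | ∀ y < a, w y ∈ A y} := by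
      have e : {w : ℕ → α | ∀ y < a, w y ∈ A y} = ⋂ y ∈ Finset.range a, (fun w => w y) ⁻¹' A y := by
        ext w
        simp only [Set.mem_ofPred_eq, Set.mem_iInter, Finset.mem_range, Set.mem_preimage]
      rw [e]
      exact Finset.measurableSet_biInter _ fun y _ => measurable_pi_apply y (hA y)
    have h2 : MeasurableSet {w : ℕ → α | (fun j => w (a + j)) ∈ B} := by
      have h3 : Measurable fun (w : ℕ → α) (j : ℕ) => w (a + j) :=
        measurable_pi_lambda _ fun j => measurable_pi_apply (a + j)
      exact h3 hB
    exact h1.inter h2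

theorem sysLaw_split (a : ℕ) (A : ℕ → Set Walk) (hA : ∀ y, MeasurableSet (A y)) (B : Set (ℕ → Walk))
    (hB : MeasurableSet B) :
    sysLaw {w | (∀ y < a, w y ∈ A y) ∧ (fun j => w (a + j)) ∈ B} =
      (∏ y ∈ Finset.range a, walkLaw (A y)) * sysLaw B :=
  split_gen walkLaw a A hA B hB

theorem walkLaw_split (a : ℕ) (A : ℕ → Set (ℝ × Bool)) (hA : ∀ y, MeasurableSet (A y)) (B : Set Walk)
    (hB : MeasurableSet B) :
    walkLaw {w | (∀ y < a, w y ∈ A y) ∧ (fun j => w (a + j)) ∈ B} =
      (∏ y ∈ Finset.range a, pairLaw (A y)) * walkLaw B :=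
  split_gen pairLaw a A hA B hB

end H949.FG
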