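import Pool.Agent.H949.FG.Defs
import Pool.Agent.H949.FG.Basic
import Pool.Agent.H949.FG.Split
import Pool.Agent.H949.FG.Chern
set_option autoImplicit false

open MeasureTheory ProbabilityTheory
open scoped ENNReal

namespace H949.FG

namespace CutAux

/-- the walker does not reach `k` before `T` -/
def NC (T : ℝ) (k : ℤ) : Set Walk := {w | ENNReal.ofReal T < hit w k}

lemma NC_meas (T : ℝ) (k : ℤ) : MeasurableSet (NC T k) :=
  measurableSet_lt measurable_const (measurable_hit k)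

/-- no walker `i < K` reaches `K` before `T` -/
def RK (T : ℝ) (K : ℕ) : Set (ℕ → Walk) := {w | ∀ i < K, w i ∈ NC T ((K : ℤ) - i)}

lemma RK_meas (T : ℝ) (K : ℕ) : MeasurableSet (RK T K) := by
  have : RK T K = ⋂ i ∈ Finset.range K, (fun w : ℕ → Walk => w i) ⁻¹' (NC T ((K : ℤ) - i)) := by
    ext w; simp [RK]
  rw [this]
  exact Finset.measurableSet_biInter _ fun i _ => (measurable_pi_apply i) (NC_meas _ _)

/-- no one of the first `N` blocks is good -/
def CN (T : ℝ) (K N : ℕ) : Set (ℕ → Walk) := {w | ∀ m < N, (fun j => w (m * K + j)) ∉ RK T K}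

lemma shift_meas (a : ℕ) : Measurable fun w : ℕ → Walk => fun j => w (a + j) :=
  measurable_pi_lambda _ fun _ => measurable_pi_apply _

lemma CN_meas (T : ℝ) (K N : ℕ) : MeasurableSet (CN T K N) := by
  have : CN T K N = ⋂ m ∈ Finset.range N, (fun w : ℕ → Walk => fun j => w (m * K + j)) ⁻¹' (RK T K)ᶜ := by
    ext w; simp [CN]
  rw [this]
  exact Finset.measurableSet_biInter _ fun m _ => (shift_meas (m * K)) (RK_meas _ _).compl

lemma sys_RK (T : ℝ) (K : ℕ) :
    sysLaw (RK T K) = ∏ i ∈ Finset.range K, walkLaw (NC T ((K : ℤ) - i)) := by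
  have h := sysLaw_split K (fun y => NC T ((K : ℤ) - y)) (fun y => NC_meas _ _) Set.univ
    MeasurableSet.univ
  rw [measure_univ, mul_one] at h
  rw [← h]
  congr 1
  ext w; simp [RK]

lemma CN_succ_eq (T : ℝ) (K N : ℕ) :
    CN T K (N + 1) = {w | (fun j => w (K + j)) ∈ CN T K N} \ RK T K := by
  ext w
  constructor
  · intro h
    refine ⟨?_, ?_⟩
    · intro m hm h2
      refine h (m + 1) (by omega) ?_
      have e : (fun j => w ((m + 1) * K + j)) = fun j => w (K + (m * K + j)) := by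
        funext j; congr 1; ring
      rw [e]; exact h2
    · intro h2
      refine h 0 (by omega) ?_
      have e : (fun j => w (0 * K + j)) = w := by
        funext j; congr 1; ring
      rw [e]; exact h2
  · rintro ⟨h1, h2⟩ m hm h3
    rcases Nat.eq_zero_or_pos m with h0 | h0
    · subst h0
      have e : (fun j => w (0 * K + j)) = w := by
        funext j; congr 1; ring
      rw [e] at h3; exact h2 h3
    · obtain ⟨m', rfl⟩ : ∃ m', m = m' + 1 := ⟨m - 1, by omega⟩
      refine h1 m' (by omega) ?_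
      have e : (fun j => w ((m' + 1) * K + j)) = fun j => w (K + (m' * K + j)) := by
        funext j; congr 1; ring
      rw [e] at h3; exact h3

lemma CN_succ (T : ℝ) (K N : ℕ) :
    sysLaw.real (CN T K (N + 1)) = (1 - sysLaw.real (RK T K)) * sysLaw.real (CN T K N) := by
  have h1 : sysLaw {w | (fun j => w (K + j)) ∈ CN T K N} = sysLaw (CN T K N) := by
    have h := sysLaw_split K (fun _ => Set.univ) (fun _ => MeasurableSet.univ) (CN T K N) (CN_meas _ _ _)
    simpa using h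
  have h2 : sysLaw ({w | (fun j => w (K + j)) ∈ CN T K N} ∩ RK T K) =
      sysLaw (RK T K) * sysLaw (CN T K N) := by
    have h := sysLaw_split K (fun y => NC T ((K : ℤ) - y)) (fun y => NC_meas _ _) (CN T K N)
      (CN_meas _ _ _)
    rw [sys_RK, ← h]
    congr 1
    ext w
    simp only [RK, Set.mem_inter_iff, Set.mem_setOf_eq]
    exact and_comm
  have h3 := measure_diff_add_inter (μ := sysLaw) {w | (fun j => w (K + j)) ∈ CN T K N} (RK_meas T K)
  rw [← CN_succ_eq, h1, h2] at h3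
  have h4 := congrArg ENNReal.toReal h3
  rw [ENNReal.toReal_add (measure_ne_top _ _)
    (ENNReal.mul_ne_top (measure_ne_top _ _) (measure_ne_top _ _)), ENNReal.toReal_mul] at h4
  simp only [Measure.real]
  linarith

lemma CN_le (T : ℝ) (K N : ℕ) : sysLaw.real (CN T K N) ≤ (1 - sysLaw.real (RK T K)) ^ N := by
  induction N with
  | zero => simpa using measureReal_le_one
  | succ N ih =>
    rw [CN_succ, pow_succ']
    exact mul_le_mul_of_nonneg_left ih (by linarith [measureReal_le_one (μ := sysLaw) (s := RK T K)])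

lemma hit_ge {w : Walk} (hw : ∀ i, 0 < (w i).1) {k : ℤ} (hk : k ≠ 0) :
    ENNReal.ofReal (w 0).1 ≤ hit w k := by
  unfold hit
  refine le_iInf₂ fun n hn => ENNReal.ofReal_le_ofReal ?_
  have hn1 : 1 ≤ n := by
    rcases Nat.eq_zero_or_pos n with h | h
    · subst h; simp at hn; exact absurd hn.symm hk
    · exact h
  have := tim_mono (fun i => (hw i).le) hn1
  simpa [tim] using this

lemma first_pos (T : ℝ) (hT : 0 ≤ T) : walkLaw.real {w : Walk | T < (w 0).1} = Real.exp (-T) := by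
  have h1 : walkLaw {w : Walk | T < (w 0).1} = pairLaw {p | T < p.1} := by
    have hm : MeasurableSet {p : ℝ × Bool | T < p.1} := measurableSet_lt measurable_const measurable_fst
    exact (measurePreserving_eval_infinitePi (fun _ : ℕ => pairLaw) 0).measure_preimage
      hm.nullMeasurableSet
  have h2 : pairLaw {p | T < p.1} = expMeasure 1 (Set.Ioi T) := by
    have e : {p : ℝ × Bool | T < p.1} = Set.Ioi T ×ˢ Set.univ := by
      ext p; simp
    rw [e, pairLaw, Measure.prod_prod, measure_univ, mul_one]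
  have h3 : (expMeasure 1).real (Set.Iic T) = 1 - Real.exp (-T) := by
    have h := cdf_expMeasure_eq one_pos T
    rw [cdf_eq_real] at h
    rw [h, if_pos hT, one_mul]
  have h4 : (expMeasure 1).real (Set.Ioi T) = 1 - (expMeasure 1).real (Set.Iic T) := by
    rw [← Set.compl_Iic, probReal_compl_eq_one_sub measurableSet_Iic]
  simp only [Measure.real] at h3 h4 ⊢
  rw [h1, h2, h4, h3]
  ring

lemma NC_lower (T : ℝ) (hT : 0 ≤ T) (k : ℤ) (hk : k ≠ 0) :
    Real.exp (-T) ≤ walkLaw.real (NC T k) := by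
  rw [← first_pos T hT]
  refine ENNReal.toReal_mono (measure_ne_top _ _) ?_
  refine measure_mono_ae ?_
  filter_upwards [walk_posTime] with w hw h
  exact lt_of_lt_of_le ((ENNReal.ofReal_lt_ofReal_iff (hw 0)).2 h) (hit_ge hw hk)

lemma NC_compl_le (T : ℝ) (hT : 0 ≤ T) : ∃ M : ℝ, 0 ≤ M ∧ ∀ k : ℕ,
    walkLaw.real (NC T k)ᶜ ≤ M * (1 / 2) ^ k := by
  obtain ⟨K, hK, h⟩ := hit_chernoff (θ := 1) one_pos
  refine ⟨K * Real.exp (2 * (Real.cosh 1 - 1) * T), by positivity, fun k => ?_⟩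
  have hm : MeasurableSet {w : Walk | hit w (k : ℤ) ≤ ENNReal.ofReal T} :=
    measurableSet_le (measurable_hit _) measurable_const
  have h1 : (NC T (k : ℤ))ᶜ = {w | hit w (k : ℤ) ≤ ENNReal.ofReal T} := by
    ext w; simp [NC]
  have h2 : walkLaw {w | hit w (k : ℤ) ≤ ENNReal.ofReal T} =
      walkLaw {w | hit w (-(k : ℤ)) ≤ ENNReal.ofReal T} := by
    conv_lhs => rw [← map_mir]
    rw [Measure.map_apply measurable_mir hm]
    congr 1
    ext w
    simp [hit_mir]
  have h3 : walkLaw.real (NC T (k : ℤ))ᶜ ≤ K * Real.exp (-(1 * k) + 2 * (Real.cosh 1 - 1) * T) := by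
    rw [h1, Measure.real, h2]
    refine ENNReal.toReal_le_of_le_ofReal (by positivity) (h k T hT)
  refine h3.trans ?_
  have h4 : Real.exp (-(1 * (k : ℝ))) ≤ (1 / 2) ^ k := by
    have h5 : Real.exp (-1) ≤ 1 / 2 := by
      rw [Real.exp_neg, one_div]
      exact inv_anti₀ (by norm_num) (by linarith [Real.add_one_le_exp (1 : ℝ)])
    have h6 : Real.exp (-(1 * (k : ℝ))) = Real.exp (-1) ^ k := by
      rw [← Real.exp_nat_mul]; congr 1; ring
    rw [h6]
    exact pow_le_pow_left₀ (Real.exp_pos _).le h5 k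
  rw [Real.exp_add]
  calc K * (Real.exp (-(1 * (k : ℝ))) * Real.exp (2 * (Real.cosh 1 - 1) * T))
      = K * Real.exp (2 * (Real.cosh 1 - 1) * T) * Real.exp (-(1 * (k : ℝ))) := by ring
    _ ≤ _ := mul_le_mul_of_nonneg_left h4 (by positivity)

lemma geo_sum (n : ℕ) : ∑ k ∈ Finset.range n, (1 / 2 : ℝ) ^ (k + 1) ≤ 1 := by
  have h : ∑ k ∈ Finset.range n, (1 / 2 : ℝ) ^ (k + 1) = 1 - (1 / 2) ^ n := by
    induction n with
    | zero => simp
    | succ n ih => rw [Finset.sum_range_succ, ih]; ring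
  rw [h]
  have : (0 : ℝ) ≤ (1 / 2) ^ n := by positivity
  linarith

lemma RK_lower (T : ℝ) (hT : 0 ≤ T) : ∃ p : ℝ, 0 < p ∧ ∀ K : ℕ, p ≤ sysLaw.real (RK T K) := by
  obtain ⟨M, hM, hMk⟩ := NC_compl_le T hT
  refine ⟨Real.exp (-(M / Real.exp (-T))), Real.exp_pos _, fun K => ?_⟩
  have hfac : ∀ k : ℕ, 1 ≤ k → Real.exp (-(M / Real.exp (-T)) * (1 / 2) ^ k) ≤ walkLaw.real (NC T k) := by
    intro k hk
    have ha := NC_lower T hT (k : ℤ) (by exact_mod_cast (by omega : k ≠ 0))
    have hδ := Real.exp_pos (-T)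
    have hapos : 0 < walkLaw.real (NC T (k : ℤ)) := lt_of_lt_of_le hδ ha
    have hc := hMk k
    rw [probReal_compl_eq_one_sub (NC_meas _ _)] at hc
    rw [← Real.le_log_iff_exp_le hapos]
    have hl := Real.one_sub_inv_le_log_of_pos hapos
    refine le_trans ?_ hl
    have h1 : (walkLaw.real (NC T (k : ℤ)))⁻¹ - 1 = (1 - walkLaw.real (NC T (k : ℤ))) / walkLaw.real (NC T (k : ℤ)) := by
      field_simp
    have h2 : (1 - walkLaw.real (NC T (k : ℤ))) / walkLaw.real (NC T (k : ℤ)) ≤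
        (M * (1 / 2) ^ k) / Real.exp (-T) :=
      div_le_div₀ (by positivity) hc hδ ha
    have h3 : (M * (1 / 2) ^ k) / Real.exp (-T) = M / Real.exp (-T) * (1 / 2) ^ k := by ring
    linarith
  have h1 : sysLaw.real (RK T K) = ∏ k ∈ Finset.range K, walkLaw.real (NC T ((k + 1 : ℕ) : ℤ)) := by
    rw [Measure.real, sys_RK, ENNReal.toReal_prod, ← Finset.prod_range_reflect]
    refine Finset.prod_congr rfl fun i hi => ?_
    have hi' := Finset.mem_range.1 hi
    rw [Measure.real]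
    congr 3
    push_cast [Nat.cast_sub (show 1 ≤ K by omega), Nat.cast_sub (show i ≤ K - 1 by omega)]
    ring
  rw [h1]
  calc Real.exp (-(M / Real.exp (-T)))
      ≤ Real.exp (∑ k ∈ Finset.range K, -(M / Real.exp (-T)) * (1 / 2) ^ (k + 1)) := by
        rw [Real.exp_le_exp, ← Finset.mul_sum]
        have h2 := geo_sum K
        have h3 : 0 ≤ M / Real.exp (-T) := by positivity
        nlinarith
    _ = ∏ k ∈ Finset.range K, Real.exp (-(M / Real.exp (-T)) * (1 / 2) ^ (k + 1)) := Real.exp_sum _ _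
    _ ≤ _ := Finset.prod_le_prod (fun _ _ => (Real.exp_pos _).le) fun k _ => hfac (k + 1) (by omega)

lemma sys_marg (T : ℝ) (i : ℕ) (k : ℤ) :
    sysLaw.real {w | hit (w i) k ≤ ENNReal.ofReal T} = walkLaw.real (NC T k)ᶜ := by
  have hm : MeasurableSet (NC T k)ᶜ := (NC_meas _ _).compl
  have h := (measurePreserving_eval_infinitePi (fun _ : ℕ => walkLaw) i).measure_preimage
    hm.nullMeasurableSet
  have e : {w : ℕ → Walk | hit (w i) k ≤ ENNReal.ofReal T} =
      (Function.eval i) ⁻¹' (NC T k)ᶜ := by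
    ext w; simp [NC]
  rw [e]
  simp only [Measure.real]
  congr 1

/-- an earlier walker crosses the end of the block `m` -/
def DM (T : ℝ) (K m : ℕ) : Set (ℕ → Walk) :=
  ⋃ i ∈ Finset.range (m * K), {w | hit (w i) (((m + 1) * K : ℕ) - (i : ℤ)) ≤ ENNReal.ofReal T}

lemma DM_le (T M : ℝ) (hM : 0 ≤ M) (hMk : ∀ k : ℕ, walkLaw.real (NC T k)ᶜ ≤ M * (1 / 2) ^ k)
    (K m : ℕ) : sysLaw.real (DM T K m) ≤ M * (1 / 2) ^ K := by
  refine (measureReal_biUnion_finset_le _ _).trans ?_
  have h1 : ∀ i ∈ Finset.range (m * K),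
      sysLaw.real {w : ℕ → Walk | hit (w i) (((m + 1) * K : ℕ) - (i : ℤ)) ≤ ENNReal.ofReal T} ≤
        M * (1 / 2) ^ K * (1 / 2) ^ (m * K - 1 - i + 1) := by
    intro i hi
    have hi' := Finset.mem_range.1 hi
    have e : (((m + 1) * K : ℕ) : ℤ) - (i : ℤ) = ((K + (m * K - 1 - i + 1) : ℕ) : ℤ) := by
      have : (m + 1) * K = i + (K + (m * K - 1 - i + 1)) := by
        rw [Nat.add_mul]; omega
      rw [this]; push_cast; ring
    rw [e, sys_marg]
    refine (hMk _).trans (le_of_eq ?_)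
    rw [pow_add]; ring
  refine (Finset.sum_le_sum h1).trans ?_
  rw [← Finset.mul_sum]
  have h2 : ∑ i ∈ Finset.range (m * K), (1 / 2 : ℝ) ^ (m * K - 1 - i + 1) ≤ 1 := by
    rw [Finset.sum_range_reflect (fun k => (1 / 2 : ℝ) ^ (k + 1)) (m * K)]
    exact geo_sum _
  calc M * (1 / 2) ^ K * ∑ i ∈ Finset.range (m * K), (1 / 2 : ℝ) ^ (m * K - 1 - i + 1)
      ≤ M * (1 / 2) ^ K * 1 := mul_le_mul_of_nonneg_left h2 (by positivity)
    _ = _ := mul_one _

lemma fixed (T : ℝ) (hT : 0 ≤ T) : ∀ᵐ w ∂sysLaw, ∃ r : ℕ, ∀ i ≤ r,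
    ENNReal.ofReal T < hit (w i) ((r : ℤ) + 1 - i) := by
  obtain ⟨M, hM, hMk⟩ := NC_compl_le T hT
  obtain ⟨p, hp, hpK⟩ := RK_lower T hT
  rw [ae_iff]
  set Bad : Set (ℕ → Walk) := {w | ¬ ∃ r : ℕ, ∀ i ≤ r,
    ENNReal.ofReal T < hit (w i) ((r : ℤ) + 1 - i)} with hBad
  have hsub : ∀ K N : ℕ, 1 ≤ K → Bad ⊆ CN T K N ∪ ⋃ m ∈ Finset.range N, DM T K m := by
    intro K N hK w hw
    by_contra hcon
    rw [Set.mem_union, not_or] at hcon
    obtain ⟨hc1, hc2⟩ := hcon
    simp only [CN, Set.mem_setOf_eq, not_forall, not_not] at hc1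
    obtain ⟨m, hmN, hm⟩ := hc1
    have hDm : w ∉ DM T K m := fun h => hc2 (Set.mem_biUnion (Finset.mem_range.2 hmN) h)
    refine hw ⟨(m + 1) * K - 1, fun i hi => ?_⟩
    have hpos : 1 ≤ (m + 1) * K := Nat.succ_le_of_lt (Nat.mul_pos (Nat.succ_pos _) hK)
    have e : (((m + 1) * K - 1 : ℕ) : ℤ) + 1 - i = (((m + 1) * K : ℕ) : ℤ) - i := by
      push_cast [Nat.cast_sub hpos]; ring
    rw [e]
    by_cases him : i < m * K
    · by_contra hlt
      exact hDm (Set.mem_biUnion (Finset.mem_range.2 him) (not_lt.1 hlt))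
    · have hmul : (m + 1) * K = m * K + K := by ring
      have h1 := hm (i - m * K) (by omega)
      have e2 : m * K + (i - m * K) = i := by omega
      simp only [NC, Set.mem_setOf_eq, e2] at h1
      have e3 : (((m + 1) * K : ℕ) : ℤ) - i = (K : ℤ) - ((i - m * K : ℕ) : ℤ) := by
        rw [Nat.cast_sub (by omega : m * K ≤ i), hmul]; push_cast; ring
      rw [e3]; exact h1
  have hbound : ∀ K N : ℕ, 1 ≤ K → sysLaw.real Bad ≤ (1 - p) ^ N + N * (M * (1 / 2) ^ K) := by
    intro K N hK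
    refine (measureReal_mono (hsub K N hK)).trans ((measureReal_union_le _ _).trans ?_)
    refine add_le_add ((CN_le T K N).trans ?_) ((measureReal_biUnion_finset_le _ _).trans ?_)
    · exact pow_le_pow_left₀ (by linarith [measureReal_le_one (μ := sysLaw) (s := RK T K)])
        (by linarith [hpK K]) N
    · refine (Finset.sum_le_sum fun m _ => DM_le T M hM hMk K m).trans (le_of_eq ?_)
      rw [Finset.sum_const, Finset.card_range, nsmul_eq_mul]
  have hp1 : p ≤ 1 := (hpK 0).trans measureReal_le_one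
  have hzero : sysLaw.real Bad ≤ 0 := by
    refine le_of_forall_pos_le_add fun ε hε => ?_
    rw [zero_add]
    obtain ⟨N, hN⟩ := exists_pow_lt_of_lt_one (half_pos hε) (show 1 - p < 1 by linarith)
    have hlim : Filter.Tendsto (fun K : ℕ => (N : ℝ) * (M * (1 / 2) ^ K)) Filter.atTop (nhds 0) := by
      have h := ((tendsto_pow_atTop_nhds_zero_of_lt_one (r := (1 / 2 : ℝ)) (by norm_num)
        (by norm_num)).const_mul M).const_mul (N : ℝ)
      simpa using h
    obtain ⟨K, hK1, hK2⟩ := ((hlim.eventually (gt_mem_nhds (half_pos hε))).and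
      (Filter.eventually_ge_atTop 1)).exists
    have := hbound K N hK2
    linarith
  have h0 : sysLaw.real Bad = 0 := le_antisymm hzero measureReal_nonneg
  rwa [measureReal_eq_zero_iff] at h0

end CutAux

/-- PROOF. By monotonicity in `T` and `ae_all_iff` it is enough to treat a fixed natural number `T`. Let
`q k = walkLaw {w | hit w k ≤ ofReal T}` for `k ≥ 1`; `q k ≤ K exp (-k) * const` by `hit_chernoff` with `θ = 1` and
`map_mir` (`hit w k = hit (mir w) (-k)`, `hit_mir`), so `∑ q k < ∞`, and `q k < 1`, as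
`{w | ∀ i, 0 < (w i).1} ∩ {w | T < (w 0).1}` has positive probability (`exp (-T)`) and on it `hit w k ≥ ofReal (w 0).1 > ofReal T`
(see `hit_pos` in Defs). Hence `p = ⨅ N, ∏ k ∈ [1, N], (1 - q k) > 0` (a product of factors in `(0, 1]` with `∑ q k < ∞`; e.g.
choose `k₀` with `∑_{k > k₀} q k ≤ 1 / 2`, then `∏_{k₀ < k ≤ N} (1 - q k) ≥ 1 - ∑ ≥ 1 / 2`,
`Finset.prod_one_sub_ge_one_sub_sum`-type inequality).
Fix `K ≥ 1` and for `m ≥ 0` let `r m = (m + 1) K - 1`, `A m = {w | ∀ i, m K ≤ i → i < (m + 1) K → ofReal T < hit (w i) (r m + 1 - i)}`,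
`D m = {w | ∃ i < m K, hit (w i) (r m + 1 - i) ≤ ofReal T}`. The events `A m` are independent, of probability
`∏ k ∈ [1, K], (1 - q k) ≥ p` (use `iIndepFun_infinitePi` or the product formula `Measure.infinitePi_pi` on the
finite set of the coordinates; or `sysLaw_split` repeatedly); `sysLaw (D m) ≤ ∑_{k > K} q k =: s K`. If no `r` works for `w`, then for
each `m`, `w ∉ A m` or `w ∈ D m`. Hence for all `N`,
`sysLaw {w | no r works} ≤ (1 - p) ^ N + N s K`. Let `K → ∞`, then `N → ∞`. -/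
theorem cut_ae : ∀ᵐ w ∂sysLaw, ∀ T : ℝ, ∃ r : ℕ, ∀ i ≤ r,
    ENNReal.ofReal T < hit (w i) ((r : ℤ) + 1 - i) := by
  have h : ∀ᵐ w ∂sysLaw, ∀ T : ℕ, ∃ r : ℕ, ∀ i ≤ r,
      ENNReal.ofReal (T : ℝ) < hit (w i) ((r : ℤ) + 1 - i) :=
    ae_all_iff.2 fun T => CutAux.fixed T (Nat.cast_nonneg T)
  filter_upwards [h] with w hw T
  obtain ⟨n, hn⟩ := exists_nat_ge T
  obtain ⟨r, hr⟩ := hw n
  exact ⟨r, fun i hi => lt_of_le_of_lt (ENNReal.ofReal_le_ofReal hn) (hr i hi)⟩

end H949.FG
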