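import Mathlib

/-!
# The two-type frog model on the integers, one particle per site: definitions
-/

set_option autoImplicit false

open MeasureTheory ProbabilityTheory
open scoped ENNReal

namespace H949.FG

/-- The data of one walker: its successive holding times and the directions of its jumps. -/
abbrev Walk := ℕ → ℝ × Bool

/-- A jump: `true` is one step to the right, `false` is one step to the left. -/
def stp (b : Bool) : ℤ := if b then 1 else -1

/-- The displacement of the walker after `n` jumps. -/
def pos (w : Walk) (n : ℕ) : ℤ := ∑ i ∈ Finset.range n, stp (w i).2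

/-- The time of the `n`-th jump of the walker (on its own clock, with holding times of mean one,
started at its activation). -/
noncomputable def tim (w : Walk) (n : ℕ) : ℝ := ∑ i ∈ Finset.range n, (w i).1

/-- The first time (on its own clock) at which the displacement of the walker is `k`;
infinite if this never happens. -/
noncomputable def hit (w : Walk) (k : ℤ) : ℝ≥0∞ := ⨅ (n : ℕ) (_ : pos w n = k), ENNReal.ofReal (tim w n)

/-- A fair coin. -/
noncomputable def coin : Measure Bool := (2 : ℝ≥0∞)⁻¹ • (Measure.dirac true + Measure.dirac false)

instance : IsProbabilityMeasure coin := by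
  constructor
  simp only [coin, Measure.smul_apply, Measure.add_apply, measure_univ, smul_eq_mul]
  rw [one_add_one_eq_two]
  exact ENNReal.inv_mul_cancel (by norm_num) (by norm_num)

instance : IsProbabilityMeasure (expMeasure 1) := isProbabilityMeasure_expMeasure one_pos

/-- The law of a pair (holding time, jump): exponential of mean one, and an independent fair coin. -/
noncomputable def pairLaw : Measure (ℝ × Bool) := (expMeasure 1).prod coin

instance : IsProbabilityMeasure pairLaw := by unfold pairLaw; infer_instance

/-- The law of a walker: the pairs are independent with law `pairLaw`. This is the continuous-time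
simple symmetric random walk on the integers with jump rate one. -/
noncomputable def walkLaw : Measure Walk := Measure.infinitePi (fun _ : ℕ => pairLaw)

instance : IsProbabilityMeasure walkLaw := by unfold walkLaw; infer_instance

/-- One walker for each site `x`; the walkers are independent, each with law `walkLaw`. -/
structure IsFrogSystem {Ω : Type*} [MeasurableSpace Ω] (P : Measure Ω) (X : ℤ → Ω → Walk) : Prop where
  meas : ∀ x, Measurable (X x)
  law : ∀ x, P.map (X x) = walkLaw
  indep : iIndepFun X P

/-- The jump rate of the two types: type 1 is `false`, type 2 is `true`. -/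
noncomputable def rate (β : ℝ) (c : Bool) : ℝ≥0∞ := if c then ENNReal.ofReal β else 1

/-- `t x` is the time at which the particle sleeping at `x` is activated (infinite if never), `c x` is its
type (`false` is type 1, `true` is type 2), in the two-type process started from `0` (type 1) and `z`
(type 2), when the particle of site `x` uses the walk `X x`. A particle of type 1 moves at jump rate
one, a particle of type 2 at jump rate `β` (it uses its walk with a clock of speed `β`). Hence the
particle of `y` enters `x` for the first time at time `t y + hit (X y) (x - y) / rate β (c y)`. -/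
structure IsOutcome (β : ℝ) (z : ℤ) (X : ℤ → Walk) (t : ℤ → ℝ≥0∞) (c : ℤ → Bool) : Prop where
  /-- The particle at the origin is active at time `0` and has type 1. -/
  zero : t 0 = 0 ∧ c 0 = false
  /-- The particle at `z` is active at time `0` and has type 2. -/
  start : t z = 0 ∧ c z = true
  /-- An active particle activates the particle of a site when it enters the site. -/
  le : ∀ x y, t x ≤ t y + hit (X y) (x - y) / rate β (c y)
  /-- Every other particle is activated by (and takes the type of) a particle activated before, which
  enters its site at its activation time. -/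
  cause : ∀ x, x ≠ 0 → x ≠ z → t x ≠ ∞ →
    ∃ y, t y < t x ∧ t x = t y + hit (X y) (x - y) / rate β (c y) ∧ c x = c y
  /-- In bounded time finitely many particles are activated. -/
  locFinite : ∀ T : ℝ, {x | t x ≤ ENNReal.ofReal T}.Finite

/-- The mirror image of a walker. -/
def mir (w : Walk) : Walk := fun i => ((w i).1, !(w i).2)

/-- The law of walkers `0, 1, 2, ...`. -/
noncomputable def sysLaw : Measure (ℕ → Walk) := Measure.infinitePi (fun _ : ℕ => walkLaw)

instance : IsProbabilityMeasure sysLaw := by unfold sysLaw; infer_instance

/-- The one-sided system, the walker `w j` starts at the site `j`: the walkers activate the site `j` before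
time `c₀ + C j`, even if all have jump rate `β` only, and no walker enters the site `-(q+1)` before the
time `c₀ + C q`; there are no explosions. -/
structure Good (β c₀ C : ℝ) (w : ℕ → Walk) : Prop where
  posTime : ∀ j i, 0 < (w j i).1
  grow : ∃ u : ℕ → ℝ≥0∞, u 0 = 0 ∧ (∀ j : ℕ, u j ≤ ENNReal.ofReal (c₀ + C * j)) ∧
    ∀ j, 0 < j → ∃ i < j, u i + hit (w i) ((j : ℤ) - i) / ENNReal.ofReal β ≤ u j
  stay : ∀ j q : ℕ, ENNReal.ofReal (c₀ + C * q) < hit (w j) (-(j : ℤ) - (q + 1))
  cut : ∀ T : ℝ, ∃ r : ℕ, ∀ i ≤ r, ENNReal.ofReal T < hit (w i) ((r : ℤ) + 1 - i)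

/-- The time after which one of the walkers `4 i, 4 i + 1, 4 i + 2, 4 i + 3` has entered `4 i + 7`, when
all start at time `0`. -/
noncomputable def Bk (w : ℕ → Walk) (i : ℕ) : ℝ≥0∞ :=
  ⨅ r : Fin 4, hit (w (4 * i + r)) (7 - (r : ℤ))

/-! ### Elementary facts -/

@[simp] lemma pos_zero (w : Walk) : pos w 0 = 0 := by simp [pos]
@[simp] lemma tim_zero (w : Walk) : tim w 0 = 0 := by simp [tim]
lemma pos_succ (w : Walk) (n : ℕ) : pos w (n + 1) = pos w n + stp (w n).2 := by
  simp [pos, Finset.sum_range_succ]
lemma tim_succ (w : Walk) (n : ℕ) : tim w (n + 1) = tim w n + (w n).1 := by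
  simp [tim, Finset.sum_range_succ]

lemma hit_le {w : Walk} {n : ℕ} {k : ℤ} (h : pos w n = k) : hit w k ≤ ENNReal.ofReal (tim w n) :=
  iInf₂_le n h

@[simp] lemma hit_zero (w : Walk) : hit w 0 = 0 := by
  have := hit_le (w := w) (n := 0) (k := 0) (by simp)
  simpa using this

lemma measurable_stp : Measurable stp := measurable_of_countable _

lemma measurable_pos (n : ℕ) : Measurable fun w : Walk => pos w n := by
  unfold pos
  refine Finset.measurable_sum _ fun i _ => measurable_stp.comp ?_
  exact measurable_snd.comp (measurable_pi_apply i)

lemma measurable_tim (n : ℕ) : Measurable fun w : Walk => tim w n := by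
  unfold tim
  exact Finset.measurable_sum _ fun i _ => measurable_fst.comp (measurable_pi_apply i)

lemma measurable_hit (k : ℤ) : Measurable fun w : Walk => hit w k := by
  unfold hit
  refine Measurable.iInf fun n => ?_
  have : (fun w : Walk => ⨅ (_ : pos w n = k), ENNReal.ofReal (tim w n)) =
      fun w => if pos w n = k then ENNReal.ofReal (tim w n) else ∞ := by
    funext w
    by_cases h : pos w n = k <;> simp [h]
  rw [this]
  refine Measurable.ite ?_ (measurable_tim n).ennreal_ofReal measurable_const
  exact (measurable_pos n) (measurableSet_singleton k)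

lemma measurable_mir : Measurable mir := by
  unfold mir
  refine measurable_pi_lambda _ fun i => ?_
  have h : Measurable fun p : ℝ × Bool => (p.1, !p.2) :=
    measurable_fst.prodMk ((measurable_of_countable fun b : Bool => !b).comp measurable_snd)
  exact h.comp (measurable_pi_apply i)

lemma pos_mir (w : Walk) (n : ℕ) : pos (mir w) n = - pos w n := by
  unfold pos mir
  rw [← Finset.sum_neg_distrib]
  refine Finset.sum_congr rfl fun i _ => ?_
  cases (w i).2 <;> simp [stp]

lemma tim_mir (w : Walk) (n : ℕ) : tim (mir w) n = tim w n := rfl

lemma hit_mir (w : Walk) (k : ℤ) : hit (mir w) k = hit w (-k) := by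
  unfold hit
  refine iInf_congr fun n => ?_
  rw [tim_mir, pos_mir]
  have : (- pos w n = k) ↔ (pos w n = -k) := by constructor <;> intro h <;> omega
  simp only [this]

lemma tim_mono {w : Walk} (hw : ∀ i, 0 ≤ (w i).1) : Monotone (tim w) :=
  monotone_nat_of_le_succ fun n => by rw [tim_succ]; linarith [hw n]

/-- The walks are nearest neighbour: before it reaches `k` the walk passes all sites between `0` and
`k`. -/
lemma exists_pos_eq (w : Walk) {n : ℕ} {j : ℤ} (hj : 0 ≤ j) (hk : j ≤ pos w n) :
    ∃ m ≤ n, pos w m = j := by
  induction n with
  | zero => exact ⟨0, le_rfl, by simp at hk ⊢; omega⟩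
  | succ n ih =>
    by_cases h : j ≤ pos w n
    · obtain ⟨m, hm, h'⟩ := ih h
      exact ⟨m, by omega, h'⟩
    · refine ⟨n + 1, le_rfl, ?_⟩
      rw [pos_succ] at hk ⊢
      have : stp (w n).2 ≤ 1 := by cases (w n).2 <;> simp [stp]
      omega

lemma hit_mono {w : Walk} (hw : ∀ i, 0 ≤ (w i).1) {j k : ℤ} (hj : 0 ≤ j) (hk : j ≤ k) :
    hit w j ≤ hit w k := by
  unfold hit
  refine le_iInf₂ fun n hn => ?_
  obtain ⟨m, hm, h'⟩ := exists_pos_eq w hj (hn ▸ hk)
  exact (iInf₂_le m h').trans (ENNReal.ofReal_le_ofReal (tim_mono hw hm))

lemma hit_pos {w : Walk} (hw : ∀ i, 0 < (w i).1) {k : ℤ} (hk : k ≠ 0) : 0 < hit w k := by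
  have h0 : ENNReal.ofReal (w 0).1 ≤ hit w k := by
    unfold hit
    refine le_iInf₂ fun n hn => ENNReal.ofReal_le_ofReal ?_
    have hn1 : 1 ≤ n := by
      rcases Nat.eq_zero_or_pos n with h | h
      · subst h; simp at hn; exact absurd hn.symm hk
      · exact h
    have := tim_mono (fun i => (hw i).le) hn1
    simpa [tim] using this
  exact lt_of_lt_of_le (ENNReal.ofReal_pos.2 (hw 0)) h0

end H949.FG
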