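import Pool.Agent.H949.FG.Defs

set_option autoImplicit false

open MeasureTheory ProbabilityTheory
open scoped ENNReal

namespace H949.FG

/-- The passage times of `oneSided`. -/
noncomputable def tauE (w : ℕ → Walk) (b : ℝ≥0∞) : ℕ → ℝ≥0∞
  | 0 => 0
  | (j + 1) => ⨅ i : Fin (j + 1), (tauE w b i.1 + hit (w i.1) (((j + 1 : ℕ) : ℤ) - (i.1 : ℤ)) / b)
termination_by n => n
decreasing_by exact i.2

lemma tauE_zero (w : ℕ → Walk) (b : ℝ≥0∞) : tauE w b 0 = 0 := by
  rw [tauE]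

lemma tauE_succ (w : ℕ → Walk) (b : ℝ≥0∞) (j : ℕ) : tauE w b (j + 1) =
    ⨅ i : Fin (j + 1), (tauE w b i.1 + hit (w i.1) (((j + 1 : ℕ) : ℤ) - (i.1 : ℤ)) / b) := by
  rw [tauE]

lemma tauE_lt (w : ℕ → Walk) (b : ℝ≥0∞) {i j : ℕ} (h : i < j) :
    tauE w b j ≤ tauE w b i + hit (w i) ((j : ℤ) - i) / b := by
  obtain ⟨k, rfl⟩ : ∃ k, j = k + 1 := ⟨j - 1, by omega⟩
  rw [tauE_succ]
  exact iInf_le (fun i : Fin (k + 1) =>
    (tauE w b i.1 + hit (w i.1) (((k + 1 : ℕ) : ℤ) - (i.1 : ℤ)) / b)) ⟨i, h⟩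

lemma tauE_att (w : ℕ → Walk) (b : ℝ≥0∞) {j : ℕ} (h : 0 < j) :
    ∃ i < j, tauE w b j = tauE w b i + hit (w i) ((j : ℤ) - i) / b := by
  obtain ⟨k, rfl⟩ : ∃ k, j = k + 1 := ⟨j - 1, by omega⟩
  obtain ⟨i, hi⟩ := exists_eq_ciInf_of_finite (f := fun i : Fin (k + 1) =>
    (tauE w b i.1 + hit (w i.1) (((k + 1 : ℕ) : ℤ) - (i.1 : ℤ)) / b))
  refine ⟨i.1, i.2, ?_⟩
  rw [tauE_succ, ← hi]

lemma tauE_mono {w : ℕ → Walk} (hw : ∀ j i, 0 < (w j i).1) (b : ℝ≥0∞) : Monotone (tauE w b) := by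
  refine monotone_nat_of_le_succ fun j => ?_
  obtain ⟨i, hi, he⟩ := tauE_att w b (Nat.succ_pos j)
  rw [he]
  rcases Nat.lt_or_ge i j with h | h
  · refine (tauE_lt w b h).trans ?_
    refine add_le_add le_rfl (ENNReal.div_le_div_right ?_ b)
    refine hit_mono (fun k => (hw i k).le) (by omega) ?_
    push_cast
    omega
  · have : i = j := by omega
    rw [this]
    exact le_self_add

/-- One-sided passage times: for walkers `w j` started from `j`, all of speed `b`. PROOF. Define `τ` by strong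
recursion `τ 0 = 0`, `τ j = ⨅ i < j, (τ i + hit (w i) (j - i) / b)` for `j > 0` (a finite minimum, attained;
e.g. `Nat.strongRec` with `⨅ i : Fin j`). (b) attained: `Finite.exists_min` / `exists_eq_ciInf_of_finite`.
(c) monotone: `τ j ≤ τ (j+1)`: the minimum for `j + 1` is attained at some `i ≤ j`; if `i = j`,
clear; if `i < j`, `τ j ≤ τ i + hit (w i) (j - i) / b ≤ τ i + hit (w i) (j + 1 - i) / b` by `hit_mono`.
(a) for `i < j` from the definition, for `i = j` since `hit _ 0 = 0`, for `i > j` by monotonicity.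
(d) from `Good.grow`: strong induction, `τ j ≤ u j`. (e) locally finite: for `T` take `r` from `cut T`. Then
`τ (r + 1) > ofReal T`, since it is `τ i + hit (w i) (r + 1 - i) / b ≥ hit (w i) (r + 1 - i) > ofReal T` for
some `i ≤ r` (`b ≤ 1`). By monotonicity `τ j ≤ ofReal T` implies `j ≤ r`.
(f) strictly: the attaining `i` has `τ i < τ j` as `hit > 0` (`hit_pos`), `b ≠ ∞` and `τ i ≠ ∞` by (d). -/
theorem oneSided {β c₀ C : ℝ} (hβ : 0 < β) {w : ℕ → Walk} (hG : Good β c₀ C w)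
    {b : ℝ≥0∞} (hb : ENNReal.ofReal β ≤ b) (hb1 : b ≤ 1) :
    ∃ τ : ℕ → ℝ≥0∞, τ 0 = 0 ∧ (∀ i j : ℕ, τ j ≤ τ i + hit (w i) ((j : ℤ) - i) / b) ∧
      (∀ j, 0 < j → ∃ i < j, τ i < τ j ∧ τ j = τ i + hit (w i) ((j : ℤ) - i) / b) ∧
      (∀ j : ℕ, τ j ≤ ENNReal.ofReal (c₀ + C * j)) ∧
      (∀ T : ℝ, ∃ r : ℕ, ∀ j, τ j ≤ ENNReal.ofReal T → j ≤ r) := by
  have hβb : ENNReal.ofReal β ≠ 0 := (ENNReal.ofReal_pos.2 hβ).ne'
  have hb0 : b ≠ 0 := fun h => hβb (le_antisymm (h ▸ hb) (zero_le))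
  have hbt : b ≠ ∞ := ne_top_of_le_ne_top ENNReal.one_ne_top hb1
  have hmono := tauE_mono hG.posTime b
  have hd : ∀ j : ℕ, tauE w b j ≤ ENNReal.ofReal (c₀ + C * j) := by
    obtain ⟨u, hu0, hu1, hu2⟩ := hG.grow
    have h1 : ∀ j : ℕ, tauE w b j ≤ u j := by
      intro j
      induction j using Nat.strong_induction_on with
      | _ j ih =>
        rcases Nat.eq_zero_or_pos j with h | h
        · subst h
          rw [tauE_zero]
          exact zero_le
        · obtain ⟨i, hi, he⟩ := hu2 j h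
          refine (tauE_lt w b hi).trans (le_trans ?_ he)
          exact add_le_add (ih i hi) (ENNReal.div_le_div_left hb _)
    exact fun j => (h1 j).trans (hu1 j)
  have hpos : ∀ i j : ℕ, i < j → 0 < hit (w i) ((j : ℤ) - i) / b := by
    intro i j hij
    refine ENNReal.div_pos ?_ hbt
    exact (hit_pos (hG.posTime i) (by omega)).ne'
  refine ⟨tauE w b, tauE_zero w b, ?_, ?_, hd, ?_⟩
  · intro i j
    rcases Nat.lt_or_ge i j with h | h
    · exact tauE_lt w b h
    · exact (hmono h).trans le_self_add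
  · intro j hj
    obtain ⟨i, hi, he⟩ := tauE_att w b hj
    refine ⟨i, hi, ?_, he⟩
    rw [he]
    have hfin : tauE w b i ≠ ∞ := ne_top_of_le_ne_top ENNReal.ofReal_ne_top (hd i)
    exact ENNReal.lt_add_right hfin (hpos i j hi).ne'
  · intro T
    obtain ⟨r, hr⟩ := hG.cut T
    refine ⟨r, fun j hj => ?_⟩
    by_contra hcon
    have h1 : r + 1 ≤ j := by omega
    obtain ⟨i, hi, he⟩ := tauE_att w b (Nat.succ_pos r)
    have h2 := hr i (by omega)
    have h3 : hit (w i) ((r : ℤ) + 1 - i) ≤ hit (w i) ((r : ℤ) + 1 - i) / b := by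
      calc hit (w i) ((r : ℤ) + 1 - i) = hit (w i) ((r : ℤ) + 1 - i) / 1 := (div_one _).symm
        _ ≤ _ := ENNReal.div_le_div_left hb1 _
    have h4 : hit (w i) ((r : ℤ) + 1 - i) / b ≤ tauE w b (r + 1) := by
      have e : (((r + 1 : ℕ) : ℤ) - (i : ℤ)) = (r : ℤ) + 1 - i := by push_cast; ring
      have he' : tauE w b (r + 1) = tauE w b i + hit (w i) (((r + 1 : ℕ) : ℤ) - (i : ℤ)) / b := he
      rw [he', e]
      exact le_add_self
    exact absurd (lt_of_lt_of_le h2 (h3.trans (h4.trans ((hmono h1).trans hj)))) (lt_irrefl _)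

/-- Existence part (deterministic), from `oneSided`. PROOF. Let `τR` be from `oneSided` for `hR` with
`b = rate β true = ofReal β`, `τL` from `oneSided` for `hL` with `b = rate β false = 1`. Put `t x = τR (x - 1).toNat`,
`c x = true` for `1 ≤ x` and `t x = τL (-x).toNat`, `c x = false` for `x ≤ 0`. `zero`, `start`: clear.
`le x y`: both `≥ 1`: write `x = 1 + j`, `y = 1 + i`; both `≤ 0`: `x = -j`, `y = -i`, with
`hit (mir (X (-i))) (j - i) = hit (X (-i)) (i - j)` (`hit_mir`). `y ≤ 0 < x`, `y = -j`, `x = 1 + q`: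
`t x ≤ ofReal (c₀ + C q) < hit (mir (X (-j))) (-j - (q+1)) = hit (X y) (x - y) = hit (X y) (x - y) / rate`
(type `false`, rate `1`); `x ≤ 0 < y`: `hR.stay` and `s ≤ s / ofReal β`. `cause`: same side, from
`oneSided`. `locFinite`: the set is contained in a bounded interval of `ℤ`. -/
theorem det_exists {β c₀ C : ℝ} (hβ : 0 < β) (hβ1 : β ≤ 1) {X : ℤ → Walk}
    (hR : Good β c₀ C (fun j => X (1 + j))) (hL : Good β c₀ C (fun j => mir (X (-(j : ℤ))))) :
    ∃ (t : ℤ → ℝ≥0∞) (c : ℤ → Bool), IsOutcome β 1 X t c := by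
  have hβ1' : ENNReal.ofReal β ≤ 1 := ENNReal.ofReal_le_one.2 hβ1
  obtain ⟨τR, R0, Ra, Rb, Rd, Re⟩ := oneSided hβ hR le_rfl hβ1'
  obtain ⟨τL, L0, La, Lb, Ld, Le⟩ := oneSided hβ hL hβ1' le_rfl
  obtain ⟨t, ht⟩ : ∃ t : ℤ → ℝ≥0∞, t = fun x => if 1 ≤ x then τR (x - 1).toNat else τL (-x).toNat :=
    ⟨_, rfl⟩
  obtain ⟨c, hc⟩ : ∃ c : ℤ → Bool, c = fun x => decide (1 ≤ x) := ⟨_, rfl⟩
  have tR : ∀ j : ℕ, t (1 + j) = τR j := by
    intro j
    rw [ht]
    simp only
    rw [if_pos (by omega)]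
    congr 1
    omega
  have cR : ∀ j : ℕ, c (1 + j) = true := by
    intro j
    rw [hc]
    simp only
    exact decide_eq_true (by omega)
  have tL : ∀ j : ℕ, t (-(j : ℤ)) = τL j := by
    intro j
    rw [ht]
    simp only
    rw [if_neg (by omega)]
    congr 1
    omega
  have cL : ∀ j : ℕ, c (-(j : ℤ)) = false := by
    intro j
    rw [hc]
    simp only
    exact decide_eq_false (by omega)
  have rT : rate β true = ENNReal.ofReal β := by simp [rate]
  have rF : rate β false = 1 := by simp [rate]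
  have hcase : ∀ x : ℤ, (∃ j : ℕ, x = 1 + j) ∨ ∃ j : ℕ, x = -(j : ℤ) := by
    intro x
    rcases le_or_gt 1 x with h | h
    · exact Or.inl ⟨(x - 1).toNat, by omega⟩
    · exact Or.inr ⟨(-x).toNat, by omega⟩
  refine ⟨t, c, ?_⟩
  constructor
  · have h1 := tL 0
    have h2 := cL 0
    simp only [Nat.cast_zero, neg_zero] at h1 h2
    exact ⟨h1.trans L0, h2⟩
  · have h1 := tR 0
    have h2 := cR 0
    simp only [Nat.cast_zero, add_zero] at h1 h2
    exact ⟨h1.trans R0, h2⟩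
  · intro x y
    rcases hcase x with ⟨j, rfl⟩ | ⟨j, rfl⟩ <;> rcases hcase y with ⟨i, rfl⟩ | ⟨i, rfl⟩
    · rw [tR, tR, cR, rT]
      have h := Ra i j
      have e : (1 + (j : ℤ)) - (1 + (i : ℤ)) = (j : ℤ) - i := by ring
      rw [e]
      exact h
    · rw [tR, tL, cL, rF, div_one]
      have h1 := Rd j
      have h2 := hL.stay i j
      rw [hit_mir] at h2
      have e : -(-(i : ℤ) - ((j : ℤ) + 1)) = (1 + (j : ℤ)) - (-(i : ℤ)) := by ring
      rw [e] at h2
      exact (h1.trans h2.le).trans le_add_self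
    · rw [tL, tR, cR, rT]
      have h1 := Ld j
      have h2 := hR.stay i j
      have e : (-(i : ℤ) - ((j : ℤ) + 1)) = -(j : ℤ) - (1 + (i : ℤ)) := by ring
      rw [e] at h2
      have h3 : hit (X (1 + i)) (-(j : ℤ) - (1 + (i : ℤ))) ≤
          hit (X (1 + i)) (-(j : ℤ) - (1 + (i : ℤ))) / ENNReal.ofReal β := by
        calc _ = hit (X (1 + i)) (-(j : ℤ) - (1 + (i : ℤ))) / 1 := (div_one _).symm
          _ ≤ _ := ENNReal.div_le_div_left hβ1' _
      exact ((h1.trans h2.le).trans h3).trans le_add_self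
    · rw [tL, tL, cL, rF]
      have h := La i j
      rw [hit_mir] at h
      have e : -((j : ℤ) - (i : ℤ)) = -(j : ℤ) - (-(i : ℤ)) := by ring
      rw [e] at h
      exact h
  · intro x hx0 hx1 _
    rcases hcase x with ⟨j, rfl⟩ | ⟨j, rfl⟩
    · have hj : 0 < j := by
        rcases Nat.eq_zero_or_pos j with h | h
        · subst h
          exact absurd (by simp) hx1
        · exact h
      obtain ⟨i, hi, h1, h2⟩ := Rb j hj
      refine ⟨1 + (i : ℤ), ?_, ?_, ?_⟩
      · rw [tR, tR]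
        exact h1
      · rw [tR, tR, cR, rT]
        have e : (1 + (j : ℤ)) - (1 + (i : ℤ)) = (j : ℤ) - i := by ring
        rw [e]
        exact h2
      · rw [cR, cR]
    · have hj : 0 < j := by
        rcases Nat.eq_zero_or_pos j with h | h
        · subst h
          exact absurd (by simp) hx0
        · exact h
      obtain ⟨i, hi, h1, h2⟩ := Lb j hj
      refine ⟨-(i : ℤ), ?_, ?_, ?_⟩
      · rw [tL, tL]
        exact h1
      · rw [tL, tL, cL, rF]
        rw [hit_mir] at h2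
        have e : -((j : ℤ) - (i : ℤ)) = -(j : ℤ) - (-(i : ℤ)) := by ring
        rw [e] at h2
        exact h2
      · rw [cL, cL]
  · intro T
    obtain ⟨rR, hrR⟩ := Re T
    obtain ⟨rL, hrL⟩ := Le T
    refine (Set.finite_Icc (-(rL : ℤ)) (1 + rR)).subset ?_
    intro x hx
    have hx' : t x ≤ ENNReal.ofReal T := hx
    rw [Set.mem_Icc]
    rcases hcase x with ⟨j, rfl⟩ | ⟨j, rfl⟩
    · rw [tR] at hx'
      have := hrR j hx'
      omega
    · rw [tL] at hx'
      have := hrL j hx'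
      omega

end H949.FG
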