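import Pool.Agent.H949.FG.Defs

set_option autoImplicit false

open MeasureTheory ProbabilityTheory
open scoped ENNReal

namespace H949.FG

lemma rate_le_one {β : ℝ} (hβ1 : β ≤ 1) (b : Bool) : rate β b ≤ 1 := by
  cases b
  · exact le_refl _
  · exact ENNReal.ofReal_le_one.2 hβ1

lemma le_rate {β : ℝ} (hβ1 : β ≤ 1) (b : Bool) : ENNReal.ofReal β ≤ rate β b := by
  cases b
  · exact ENNReal.ofReal_le_one.2 hβ1
  · exact le_refl _

lemma le_div_rate {β : ℝ} (hβ1 : β ≤ 1) (b : Bool) (s : ℝ≥0∞) : s ≤ s / rate β b := by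
  have h := ENNReal.div_le_div_left (rate_le_one hβ1 b) s
  rwa [div_one] at h

/-- Uniqueness part (deterministic). PROOF. Write `d` for `hit`.
(0) `1 ≤` everything: for all `s : ℝ≥0∞` and `b : Bool`: `s ≤ s / rate β b` (as `rate β b ≤ 1`), and
`s / rate β b ≤ s / ENNReal.ofReal β` (as `ofReal β ≤ rate β b`).
(1) Upper bounds: let `u` be from `hR.grow`. For all `j`, `t (1 + j) ≤ u j`: strong induction on `j`; `j = 0`
is `h.start`; for `j > 0` take `i < j` from `grow`, then `h.le (1 + j) (1 + i)` gives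
`t (1 + j) ≤ t (1 + i) + hit (X (1 + i)) (j - i) / rate .. ≤ u i + hit .. / ofReal β ≤ u j`. Hence
`t (1 + j) ≤ ofReal (c₀ + C j)`. In the same way, from `hL.grow` and `hit_mir`, `t (-j) ≤ ofReal (c₀ + C j)`
(`h.zero` for `j = 0`). In particular `t x ≠ ∞` for all `x`.
(2) Call `x` bad if `x ≤ 0` and `c x = true`, or `1 ≤ x` and `c x = false`. Suppose there is a bad `x₀`. The
set of bad `x` with `t x ≤ t x₀` is nonempty and finite (`h.locFinite`), let `x` be a bad point of it with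
minimal `t x`; then no `y` with `t y < t x` is bad. `x ≠ 0` and `x ≠ 1` by `h.zero`, `h.start`. Take `y`
from `h.cause x`: `t y < t x`, so `y` is not bad, `c x = c y`, so `x` and `y` are on different sides. If
`y ≤ 0 < x`, write `y = -j`, `x = 1 + q`: then `t x ≥ hit (X y) (x - y) / rate ≥ hit (X (-j)) (j + q + 1)
= hit (mir (X (-j))) (-j - (q + 1)) > ofReal (c₀ + C q) ≥ t (1 + q) = t x`, a contradiction
(`hL.stay`, `hit_mir`). If `x ≤ 0 < y`, write `y = 1 + j`, `x = -q`, the same with `hR.stay`. -/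
theorem det_unique {β c₀ C : ℝ} (hβ : 0 < β) (hβ1 : β ≤ 1) {X : ℤ → Walk}
    (hR : Good β c₀ C (fun j => X (1 + j))) (hL : Good β c₀ C (fun j => mir (X (-(j : ℤ)))))
    {t : ℤ → ℝ≥0∞} {c : ℤ → Bool} (h : IsOutcome β 1 X t c) :
    (∀ x, t x ≠ ∞) ∧ (∀ x ≤ 0, c x = false) ∧ (∀ x, 1 ≤ x → c x = true) := by
  have hRb : ∀ j : ℕ, t (1 + (j : ℤ)) ≤ ENNReal.ofReal (c₀ + C * j) := by
    obtain ⟨u, _, hu1, hu2⟩ := hR.grow
    have hu : ∀ j : ℕ, t (1 + (j : ℤ)) ≤ u j := by
      intro j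
      induction j using Nat.strong_induction_on with
      | _ j ih =>
        rcases Nat.eq_zero_or_pos j with hj | hj
        · rw [hj]
          have h0 : t (1 + ((0 : ℕ) : ℤ)) = 0 := by
            rw [Nat.cast_zero, add_zero]
            exact h.start.1
          rw [h0]
          exact bot_le
        · obtain ⟨i, hij, hi⟩ := hu2 j hj
          have h1 := h.le (1 + (j : ℤ)) (1 + (i : ℤ))
          rw [add_sub_add_left_eq_sub] at h1
          exact h1.trans ((add_le_add (ih i hij)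
            (ENNReal.div_le_div_left (le_rate hβ1 _) _)).trans hi)
    exact fun j => (hu j).trans (hu1 j)
  have hLb : ∀ j : ℕ, t (-(j : ℤ)) ≤ ENNReal.ofReal (c₀ + C * j) := by
    obtain ⟨u, _, hu1, hu2⟩ := hL.grow
    have hu : ∀ j : ℕ, t (-(j : ℤ)) ≤ u j := by
      intro j
      induction j using Nat.strong_induction_on with
      | _ j ih =>
        rcases Nat.eq_zero_or_pos j with hj | hj
        · rw [hj]
          have h0 : t (-((0 : ℕ) : ℤ)) = 0 := by
            rw [Nat.cast_zero, neg_zero]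
            exact h.zero.1
          rw [h0]
          exact bot_le
        · obtain ⟨i, hij, hi⟩ := hu2 j hj
          rw [hit_mir] at hi
          have h1 := h.le (-(j : ℤ)) (-(i : ℤ))
          have e : -(j : ℤ) - -(i : ℤ) = -((j : ℤ) - i) := by ring
          rw [e] at h1
          exact h1.trans ((add_le_add (ih i hij)
            (ENNReal.div_le_div_left (le_rate hβ1 _) _)).trans hi)
    exact fun j => (hu j).trans (hu1 j)
  have hRx : ∀ x : ℤ, 1 ≤ x → ∃ j : ℕ, x = 1 + (j : ℤ) := fun x hx => ⟨(x - 1).toNat, by omega⟩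
  have hLx : ∀ x : ℤ, x ≤ 0 → ∃ j : ℕ, x = -(j : ℤ) := fun x hx => ⟨(-x).toNat, by omega⟩
  have htop : ∀ x, t x ≠ ∞ := by
    intro x
    rcases le_or_gt x 0 with hx | hx
    · obtain ⟨j, rfl⟩ := hLx x hx
      exact ne_top_of_le_ne_top ENNReal.ofReal_ne_top (hLb j)
    · obtain ⟨j, rfl⟩ := hRx x hx
      exact ne_top_of_le_ne_top ENNReal.ofReal_ne_top (hRb j)
  have hbad : ∀ x, ¬ ((x ≤ 0 ∧ c x = true) ∨ (1 ≤ x ∧ c x = false)) := by
    intro x₀ hx₀
    have hfin : {x | ((x ≤ 0 ∧ c x = true) ∨ (1 ≤ x ∧ c x = false)) ∧ t x ≤ t x₀}.Finite := by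
      refine (h.locFinite (t x₀).toReal).subset ?_
      rintro x ⟨-, hx⟩
      show t x ≤ ENNReal.ofReal (t x₀).toReal
      rw [ENNReal.ofReal_toReal (htop x₀)]
      exact hx
    obtain ⟨x, ⟨hxb, hxt⟩, hmin⟩ := Set.exists_min_image _ t hfin ⟨x₀, hx₀, le_refl _⟩
    have hgood : ∀ y, t y < t x → ¬ ((y ≤ 0 ∧ c y = true) ∨ (1 ≤ y ∧ c y = false)) :=
      fun y hy hyb => absurd (hmin y ⟨hyb, hy.le.trans hxt⟩) (not_le.2 hy)
    have hx0 : x ≠ 0 := by
      rintro rfl
      rcases hxb with hb | hb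
      · rw [h.zero.2] at hb
        exact absurd hb.2 (by decide)
      · omega
    have hx1 : x ≠ 1 := by
      rintro rfl
      rcases hxb with hb | hb
      · omega
      · rw [h.start.2] at hb
        exact absurd hb.2 (by decide)
    obtain ⟨y, hyt, hyx, hc⟩ := h.cause x hx0 hx1 (htop x)
    have hy := hgood y hyt
    have hge : hit (X y) (x - y) ≤ t x := by
      rw [hyx]
      exact (le_div_rate hβ1 _ _).trans le_add_self
    rcases hxb with hb | hb
    · have hy1 : 1 ≤ y := by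
        by_contra hlt
        exact hy (Or.inl ⟨by omega, by rw [← hc]; exact hb.2⟩)
      obtain ⟨j, rfl⟩ := hRx y hy1
      obtain ⟨q, rfl⟩ := hLx x hb.1
      have h1 := hR.stay j q
      have e : -(j : ℤ) - ((q : ℤ) + 1) = -(q : ℤ) - (1 + (j : ℤ)) := by ring
      rw [e] at h1
      exact absurd (h1.trans_le (hge.trans (hLb q))) (lt_irrefl _)
    · have hy1 : y ≤ 0 := by
        by_contra hlt
        exact hy (Or.inr ⟨by omega, by rw [← hc]; exact hb.2⟩)
      obtain ⟨j, rfl⟩ := hLx y hy1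
      obtain ⟨q, rfl⟩ := hRx x hb.1
      have h1 := hL.stay j q
      rw [hit_mir] at h1
      have e : -(-(j : ℤ) - ((q : ℤ) + 1)) = 1 + (q : ℤ) - -(j : ℤ) := by ring
      rw [e] at h1
      exact absurd (h1.trans_le (hge.trans (hRb q))) (lt_irrefl _)
  refine ⟨htop, fun x hx => ?_, fun x hx => ?_⟩
  · cases hcx : c x
    · rfl
    · exact absurd (Or.inl ⟨hx, hcx⟩) (hbad x)
  · cases hcx : c x
    · exact absurd (Or.inr ⟨hx, hcx⟩) (hbad x)
    · rfl

end H949.FG
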