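import Pool.Agent.H949.FG.Defs

set_option autoImplicit false

open MeasureTheory ProbabilityTheory
open scoped ENNReal

namespace H949.FG

theorem pos_right {w : Walk} {M : ℕ} (h : ∀ i < M, (w i).2 = true) : ∀ n ≤ M, pos w n = n := by
  intro n
  induction n with
  | zero => intro _; simp
  | succ n ih =>
    intro hn
    rw [pos_succ, ih (by omega), h n (by omega)]
    simp [stp]

theorem tim_right {w : Walk} {M : ℕ} {b : ℝ} (h : ∀ i < M, (w i).1 ≤ b) :
    ∀ n ≤ M, tim w n ≤ n * b := by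
  intro n
  induction n with
  | zero => intro _; simp
  | succ n ih =>
    intro hn
    rw [tim_succ]
    have h1 := ih (by omega)
    have h2 := h n (by omega)
    push_cast
    linarith

/-- Deterministic. PROOF. Put `u 0 = 0` and `u j = 1 + (∑ i < (j - 4 l) / 4, Bk w (l + i)) / ofReal β` for `j > 0` (natural
subtraction and division). Bound: `(j - 4 l) / 4 ≤ j`, so `u j ≤ 1 + ofReal (c₁ + C₁ j) / ofReal β = ofReal (1 + c₁ / β + C₁ / β * j)`.
Let `j > 0`. Case `j ≤ 4 l + 3`: then `(j - 4 l) / 4 = 0`, `u j = 1`; take `i = 0`: the first `M ≥ j` jumps of `w 0` are to the right, so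
`pos (w 0) j = j`, `hit (w 0) j ≤ ofReal (tim (w 0) j) ≤ ofReal (j β / M) ≤ ofReal β`, hence `u 0 + hit / ofReal β ≤ 1 = u j`.
Case `j ≥ 4 l + 4`: let `m + 1 = (j - 4 l) / 4`, so `4 (l + m) + 4 ≤ j ≤ 4 (l + m) + 7`; let `r : Fin 4` attain the minimum in
`Bk w (l + m)` and `i = 4 (l + m) + r < j`. `(i - 4 l) / 4 = m`, so `u i ≤ 1 + (∑ i < m, Bk w (l + i)) / ofReal β`; and by
`hit_mono` (`0 ≤ j - i ≤ 7 - r`) `hit (w i) (j - i) ≤ hit (w i) (7 - r) = Bk w (l + m)`. Add up (`Finset.sum_range_succ`,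
`ENNReal.add_div`). -/
theorem grow_of {β c₁ C₁ : ℝ} (hβ : 0 < β) (hc : 0 ≤ c₁) (hC : 0 ≤ C₁) {w : ℕ → Walk}
    (hw : ∀ j i, 0 < (w j i).1) {l M : ℕ} (hM : 4 * l + 3 ≤ M)
    (h0 : ∀ i < M, (w 0 i).2 = true ∧ (w 0 i).1 ≤ β / M)
    (hF : ∀ m : ℕ, ∑ i ∈ Finset.range m, Bk w (l + i) ≤ ENNReal.ofReal (c₁ + C₁ * m)) :
    ∃ u : ℕ → ℝ≥0∞, u 0 = 0 ∧ (∀ j : ℕ, u j ≤ ENNReal.ofReal ((1 + c₁ / β) + (C₁ / β) * j)) ∧
      ∀ j, 0 < j → ∃ i < j, u i + hit (w i) ((j : ℤ) - i) / ENNReal.ofReal β ≤ u j := by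
  classical
  have hβ0 : ENNReal.ofReal β ≠ 0 := by
    rw [Ne, ENNReal.ofReal_eq_zero, not_le]
    exact hβ
  set S : ℕ → ℝ≥0∞ := fun m => ∑ i ∈ Finset.range m, Bk w (l + i) with hS
  set u : ℕ → ℝ≥0∞ := fun j => if j = 0 then 0 else 1 + S ((j - 4 * l) / 4) / ENNReal.ofReal β with hu
  have hu0 : u 0 = 0 := by rw [hu]; simp
  have hup : ∀ j, 0 < j → u j = 1 + S ((j - 4 * l) / 4) / ENNReal.ofReal β := by
    intro j hj
    rw [hu]
    exact if_neg hj.ne'
  have hule : ∀ j, u j ≤ 1 + S ((j - 4 * l) / 4) / ENNReal.ofReal β := by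
    intro j
    rcases Nat.eq_zero_or_pos j with h | h
    · rw [h, hu0]
      exact bot_le
    · exact (hup j h).le
  refine ⟨u, hu0, fun j => ?_, fun j hj => ?_⟩
  · refine (hule j).trans ?_
    have h1 : S ((j - 4 * l) / 4) ≤ ENNReal.ofReal (c₁ + C₁ * j) := by
      refine (hF _).trans (ENNReal.ofReal_le_ofReal ?_)
      have h2 : (((j - 4 * l) / 4 : ℕ) : ℝ) ≤ j := by
        exact_mod_cast (Nat.div_le_self _ _).trans (Nat.sub_le _ _)
      have := mul_le_mul_of_nonneg_left h2 hC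
      linarith
    have h3 : S ((j - 4 * l) / 4) / ENNReal.ofReal β ≤ ENNReal.ofReal ((c₁ + C₁ * j) / β) := by
      rw [ENNReal.ofReal_div_of_pos hβ]
      exact ENNReal.div_le_div_right h1 _
    have h4 : (0:ℝ) ≤ (c₁ + C₁ * j) / β := by positivity
    calc 1 + S ((j - 4 * l) / 4) / ENNReal.ofReal β
        ≤ ENNReal.ofReal 1 + ENNReal.ofReal ((c₁ + C₁ * j) / β) := by
          rw [ENNReal.ofReal_one]
          gcongr
      _ = ENNReal.ofReal (1 + (c₁ + C₁ * j) / β) := (ENNReal.ofReal_add zero_le_one h4).symm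
      _ = ENNReal.ofReal ((1 + c₁ / β) + (C₁ / β) * j) := by
          congr 1
          ring
  · rcases Nat.lt_or_ge j (4 * l + 4) with h | h
    · refine ⟨0, hj, ?_⟩
      have hd : (j - 4 * l) / 4 = 0 := by omega
      have huj : u j = 1 := by
        rw [hup j hj, hd, hS]
        simp
      rw [huj, hu0, zero_add]
      have hjM : j ≤ M := by omega
      have hM0 : (0:ℝ) < M := by
        have : 0 < M := by omega
        exact_mod_cast this
      have h1 : hit (w 0) ((j : ℤ) - (0 : ℕ)) ≤ ENNReal.ofReal β := by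
        have e : ((j : ℤ) - (0 : ℕ)) = j := by simp
        rw [e]
        refine (hit_le (pos_right (fun i hi => (h0 i hi).1) j hjM)).trans
          (ENNReal.ofReal_le_ofReal ?_)
        refine (tim_right (fun i hi => (h0 i hi).2) j hjM).trans ?_
        have h2 : (j : ℝ) ≤ M := by exact_mod_cast hjM
        calc (j : ℝ) * (β / M) ≤ M * (β / M) := by gcongr
          _ = β := by field_simp
      calc hit (w 0) ((j : ℤ) - (0 : ℕ)) / ENNReal.ofReal β
          ≤ ENNReal.ofReal β / ENNReal.ofReal β := ENNReal.div_le_div_right h1 _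
        _ = 1 := ENNReal.div_self hβ0 ENNReal.ofReal_ne_top
    · obtain ⟨m, hm⟩ : ∃ m, (j - 4 * l) / 4 = m + 1 := ⟨(j - 4 * l) / 4 - 1, by omega⟩
      obtain ⟨r, hr⟩ := exists_eq_ciInf_of_finite
        (f := fun r : Fin 4 => hit (w (4 * (l + m) + r)) (7 - ((r : ℕ) : ℤ)))
      have hr4 := r.2
      have hi : 4 * (l + m) + (r : ℕ) < j := by omega
      refine ⟨4 * (l + m) + r, hi, ?_⟩
      have hid : (4 * (l + m) + (r : ℕ) - 4 * l) / 4 = m := by omega
      have h1 : u (4 * (l + m) + r) ≤ 1 + S m / ENNReal.ofReal β := by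
        have := hule (4 * (l + m) + r)
        rwa [hid] at this
      have h2 : hit (w (4 * (l + m) + r)) ((j : ℤ) - ((4 * (l + m) + r : ℕ) : ℤ)) ≤ Bk w (l + m) := by
        have h3 : Bk w (l + m) = hit (w (4 * (l + m) + r)) (7 - ((r : ℕ) : ℤ)) := hr.symm
        rw [h3]
        refine hit_mono (fun i => (hw _ i).le) ?_ ?_
        · omega
        · omega
      rw [hup j hj, hm]
      calc u (4 * (l + m) + r) + hit (w (4 * (l + m) + r)) ((j : ℤ) - ((4 * (l + m) + r : ℕ) : ℤ)) /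
            ENNReal.ofReal β
          ≤ (1 + S m / ENNReal.ofReal β) + Bk w (l + m) / ENNReal.ofReal β :=
            add_le_add h1 (ENNReal.div_le_div_right h2 _)
        _ = 1 + S (m + 1) / ENNReal.ofReal β := by
          rw [add_assoc, ← ENNReal.add_div]
          congr 2
          rw [hS]
          exact (Finset.sum_range_succ _ m).symm

end H949.FG
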