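import Pool.Agent.H949.FG.Defs

set_option autoImplicit false

open MeasureTheory ProbabilityTheory
open scoped ENNReal

namespace H949.FG

namespace PosTail

/-! ### Decomposition over the first step -/

/-- the sequence `p.1, p.2 0, p.2 1, ...` -/
def cns {α : Type*} (p : α × (ℕ → α)) : ℕ → α
  | 0 => p.1
  | n + 1 => p.2 n

theorem measurable_cns {α : Type*} [MeasurableSpace α] : Measurable (cns (α := α)) := by
  refine measurable_pi_lambda _ fun n => ?_
  cases n with
  | zero => exact measurable_fst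
  | succ n => exact (measurable_pi_apply n).comp measurable_snd

theorem law_cns {α : Type*} [MeasurableSpace α] (μ : Measure α) [IsProbabilityMeasure μ] :
    (μ.prod (Measure.infinitePi fun _ : ℕ => μ)).map cns = Measure.infinitePi fun _ : ℕ => μ := by
  classical
  refine Measure.eq_infinitePi (fun _ : ℕ => μ) fun s t ht => ?_
  have hms : MeasurableSet (Set.pi (s : Set ℕ) t) :=
    MeasurableSet.pi s.countable_toSet fun i _ => ht i
  rw [Measure.map_apply measurable_cns hms]
  obtain ⟨s', hs'⟩ : ∃ s' : Finset ℕ, ∀ n, n ∈ s' ↔ n + 1 ∈ s :=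
    ⟨s.preimage (fun n => n + 1) (fun a _ b _ h => Nat.succ.inj h), fun n => Finset.mem_preimage⟩
  obtain ⟨A, hA⟩ : ∃ A : Set α, A = if 0 ∈ s then t 0 else Set.univ := ⟨_, rfl⟩
  have e1 : cns ⁻¹' (Set.pi (s : Set ℕ) t) = A ×ˢ Set.pi (s' : Set ℕ) (fun n => t (n + 1)) := by
    ext ⟨x, v⟩
    rw [Set.mem_preimage, Set.mem_pi, Set.mem_prod, Set.mem_pi, hA]
    constructor
    · intro h
      refine ⟨?_, fun n hn => ?_⟩
      · split_ifs with h0
        · exact h 0 h0
        · exact Set.mem_univ _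
      · exact h (n + 1) ((hs' n).1 hn)
    · rintro ⟨h1, h2⟩ i hi
      cases i with
      | zero =>
        rw [if_pos (Finset.mem_coe.1 hi)] at h1
        exact h1
      | succ n => exact h2 n ((hs' n).2 hi)
  rw [e1, Measure.prod_prod, Measure.infinitePi_pi (fun _ : ℕ => μ) (fun i _ => ht (i + 1))]
  have e2 : ∏ n ∈ s', μ (t (n + 1)) = ∏ i ∈ s.erase 0, μ (t i) := by
    have h1 : s.erase 0 = s'.image (fun n => n + 1) := by
      ext i
      rw [Finset.mem_erase, Finset.mem_image]
      constructor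
      · rintro ⟨h0, hi⟩
        obtain ⟨n, rfl⟩ := Nat.exists_eq_succ_of_ne_zero h0
        exact ⟨n, (hs' n).2 hi, rfl⟩
      · rintro ⟨n, hn, rfl⟩
        exact ⟨Nat.succ_ne_zero n, (hs' n).1 hn⟩
    rw [h1, Finset.prod_image (fun a _ b _ h => Nat.succ_injective h)]
  rw [e2, hA]
  by_cases h0 : 0 ∈ s
  · rw [if_pos h0]
    exact Finset.mul_prod_erase s (fun i => μ (t i)) h0
  · rw [if_neg h0, measure_univ, one_mul, Finset.erase_eq_of_notMem h0]

/-- the walk does not visit `x` before time `n` -/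
def E (n : ℕ) (x : ℤ) : Set Walk := {w | ∀ m ≤ n, pos w m ≠ x}

theorem measurableSet_E (n : ℕ) (x : ℤ) : MeasurableSet (E n x) := by
  have e : E n x = ⋂ m ∈ Finset.range (n + 1), {w | pos w m ≠ x} := by
    ext w
    simp only [E, Set.mem_ofPred_eq, Set.mem_iInter, Finset.mem_range, Nat.lt_succ_iff]
  rw [e]
  refine Finset.measurableSet_biInter _ fun m _ => ?_
  exact (measurable_pos m) (measurableSet_singleton x).compl

theorem pos_cns (p : (ℝ × Bool) × Walk) (m : ℕ) : pos (cns p) (m + 1) = stp p.1.2 + pos p.2 m := by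
  unfold pos
  rw [Finset.sum_range_succ']
  show (∑ i ∈ Finset.range m, stp (p.2 i).2) + stp p.1.2 = _
  rw [add_comm]

theorem pairLaw_dir (b : Bool) : pairLaw {p | p.2 = b} = 2⁻¹ := by
  have e : {p : ℝ × Bool | p.2 = b} = Set.univ ×ˢ {b} := by
    ext p
    simp
  rw [e, pairLaw, Measure.prod_prod, measure_univ, one_mul, coin]
  cases b <;> simp

theorem E_succ (n : ℕ) (x : ℤ) (hx : x ≠ 0) :
    walkLaw (E (n + 1) x) = 2⁻¹ * walkLaw (E n (x - 1)) + 2⁻¹ * walkLaw (E n (x + 1)) := by
  have h1 : walkLaw (E (n + 1) x) = (pairLaw.prod walkLaw) (cns ⁻¹' E (n + 1) x) := by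
    have h2 : (pairLaw.prod walkLaw).map cns = walkLaw := law_cns pairLaw
    rw [← Measure.map_apply measurable_cns (measurableSet_E _ _), h2]
  have e : cns ⁻¹' E (n + 1) x = {p : ℝ × Bool | p.2 = true} ×ˢ E n (x - 1) ∪
      {p : ℝ × Bool | p.2 = false} ×ˢ E n (x + 1) := by
    ext ⟨p, v⟩
    have hp0 : pos (cns (p, v)) 0 = 0 := pos_zero _
    have hkey : (p, v) ∈ cns ⁻¹' E (n + 1) x ↔ ∀ m ≤ n, stp p.2 + pos v m ≠ x := by
      constructor
      · intro h m hm
        have := h (m + 1) (by omega)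
        rw [pos_cns] at this
        exact this
      · intro h m hm
        cases m with
        | zero =>
          rw [hp0]
          exact hx.symm
        | succ m =>
          rw [pos_cns]
          exact h m (by omega)
    rw [hkey, Set.mem_union, Set.mem_prod, Set.mem_prod]
    show _ ↔ (p.2 = true ∧ ∀ m ≤ n, pos v m ≠ x - 1) ∨ (p.2 = false ∧ ∀ m ≤ n, pos v m ≠ x + 1)
    cases hb : p.2
    · constructor
      · intro h
        refine Or.inr ⟨rfl, fun m hm he => h m hm ?_⟩
        rw [he]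
        simp [stp]
      · rintro (⟨h, -⟩ | ⟨-, h⟩) m hm he
        · exact absurd h (by simp)
        · apply h m hm
          simp only [stp] at he
          simp at he
          omega
    · constructor
      · intro h
        refine Or.inl ⟨rfl, fun m hm he => h m hm ?_⟩
        rw [he]
        simp [stp]
      · rintro (⟨-, h⟩ | ⟨h, -⟩) m hm he
        · apply h m hm
          simp only [stp] at he
          simp at he
          omega
        · exact absurd h (by simp)
  have hdis : Disjoint ({p : ℝ × Bool | p.2 = true} ×ˢ E n (x - 1))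
      ({p : ℝ × Bool | p.2 = false} ×ˢ E n (x + 1)) := by
    rw [Set.disjoint_left]
    rintro ⟨p, v⟩ ⟨ha, -⟩ ⟨hb, -⟩
    have ha' : p.2 = true := ha
    have hb' : p.2 = false := hb
    rw [ha'] at hb'
    exact absurd hb' (by simp)
  have hm2 : MeasurableSet ({p : ℝ × Bool | p.2 = false} ×ˢ E n (x + 1)) :=
    (measurable_snd (measurableSet_singleton false)).prod (measurableSet_E _ _)
  rw [h1, e, measure_union hdis hm2, Measure.prod_prod, Measure.prod_prod, pairLaw_dir, pairLaw_dir]

/-! ### The binomial coefficients -/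

/-- `2 ^ n` times the probability that the maximum up to time `n` is `y` -/
def D (n y : ℕ) : ℕ := if y ≤ n then n.choose ((n - y) / 2) else 0

/-- the sum of the `D n y` for `y < x` -/
def F (n x : ℕ) : ℕ := ∑ y ∈ Finset.range x, D n y

theorem D_zero (n : ℕ) : D (n + 1) 0 = D n 0 + D n 1 := by
  unfold D
  rw [if_pos (Nat.zero_le _), if_pos (Nat.zero_le _), Nat.sub_zero, Nat.sub_zero]
  rcases Nat.even_or_odd' n with ⟨m, rfl | rfl⟩
  · cases m with
    | zero => simp
    | succ m =>
      rw [if_pos (by omega), show (2 * (m + 1) + 1) / 2 = m + 1 by omega,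
        show (2 * (m + 1) / 2) = m + 1 by omega, show (2 * (m + 1) - 1) / 2 = m by omega,
        Nat.choose_succ_succ, add_comm]
  · rw [if_pos (by omega), show (2 * m + 1 + 1) / 2 = m + 1 by omega,
      show (2 * m + 1) / 2 = m by omega, show (2 * m + 1 - 1) / 2 = m by omega,
      Nat.choose_succ_succ]
    congr 1
    exact Nat.choose_symm_half m

theorem D_succ (n y : ℕ) : D (n + 1) (y + 1) = D n y + D n (y + 2) := by
  unfold D
  by_cases h : y ≤ n
  · rw [if_pos (by omega), if_pos h, show n + 1 - (y + 1) = n - y by omega]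
    by_cases h2 : y + 2 ≤ n
    · rw [if_pos h2]
      obtain ⟨k, hk⟩ : ∃ k, (n - y) / 2 = k + 1 := ⟨(n - y) / 2 - 1, by omega⟩
      rw [hk, show (n - (y + 2)) / 2 = k by omega, Nat.choose_succ_succ, add_comm]
    · rw [if_neg h2, show (n - y) / 2 = 0 by omega]
      simp
  · rw [if_neg (by omega), if_neg h, if_neg (by omega)]

theorem F_succ (n x : ℕ) : F (n + 1) (x + 1) = F n x + F n (x + 2) := by
  induction x with
  | zero =>
    unfold F
    simp only [Finset.sum_range_succ, Finset.sum_range_zero, zero_add]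
    exact D_zero n
  | succ x ih =>
    have h1 : F (n + 1) (x + 1 + 1) = F (n + 1) (x + 1) + D (n + 1) (x + 1) :=
      Finset.sum_range_succ _ _
    have h2 : F n (x + 1) = F n x + D n x := Finset.sum_range_succ _ _
    have h3 : F n (x + 1 + 2) = F n (x + 2) + D n (x + 2) := Finset.sum_range_succ _ _
    rw [h1, h2, h3, ih, D_succ]
    ring

theorem F_zero (x : ℕ) : 1 ≤ F 0 (x + 1) := by
  unfold F
  rw [Finset.sum_range_succ']
  have h : D 0 0 = 1 := rfl
  rw [h]
  exact Nat.le_add_left _ _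

theorem F_le (n x : ℕ) : F n x ≤ x * n.choose (n / 2) := by
  unfold F
  refine (Finset.sum_le_card_nsmul _ _ (n.choose (n / 2)) fun y _ => ?_).trans (le_of_eq ?_)
  · unfold D
    split_ifs
    · exact Nat.choose_le_middle _ _
    · exact Nat.zero_le _
  · rw [Finset.card_range, smul_eq_mul]

theorem central (m : ℕ) : (2 * m + 1) * m.centralBinom ^ 2 ≤ 16 ^ m := by
  induction m with
  | zero => simp
  | succ m ih =>
    have h1 := Nat.succ_mul_centralBinom_succ m
    have h2 : (m + 1) ^ 2 * ((2 * (m + 1) + 1) * (m + 1).centralBinom ^ 2) ≤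
        (m + 1) ^ 2 * 16 ^ (m + 1) := by
      calc (m + 1) ^ 2 * ((2 * (m + 1) + 1) * (m + 1).centralBinom ^ 2)
          = (2 * m + 3) * ((m + 1) * (m + 1).centralBinom) ^ 2 := by ring
        _ = 4 * (2 * m + 3) * (2 * m + 1) * ((2 * m + 1) * m.centralBinom ^ 2) := by
            rw [h1]
            ring
        _ ≤ 4 * (2 * m + 3) * (2 * m + 1) * 16 ^ m := Nat.mul_le_mul_left _ ih
        _ ≤ (m + 1) ^ 2 * 16 ^ (m + 1) := by
            rw [pow_succ 16 m]
            have h3 : 4 * (2 * m + 3) * (2 * m + 1) ≤ (m + 1) ^ 2 * 16 := by nlinarith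
            calc 4 * (2 * m + 3) * (2 * m + 1) * 16 ^ m ≤ (m + 1) ^ 2 * 16 * 16 ^ m :=
                  Nat.mul_le_mul_right _ h3
              _ = (m + 1) ^ 2 * (16 ^ m * 16) := by ring
    exact Nat.le_of_mul_le_mul_left h2 (by positivity)

theorem middle (n : ℕ) : (n + 1) * n.choose (n / 2) ^ 2 ≤ 4 ^ n := by
  rcases Nat.even_or_odd' n with ⟨m, rfl | rfl⟩
  · have h := central m
    rw [Nat.centralBinom_eq_two_mul_choose] at h
    rw [show 2 * m / 2 = m by omega, pow_mul]
    exact h
  · have h := central (m + 1)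
    rw [Nat.centralBinom_eq_two_mul_choose, show 2 * (m + 1) = 2 * m + 1 + 1 by ring,
      Nat.choose_succ_succ, Nat.choose_symm_half] at h
    rw [show (2 * m + 1) / 2 = m by omega]
    have e : 16 ^ (m + 1) = 4 * 4 ^ (2 * m + 1) := by
      rw [show (16 : ℕ) = 4 ^ 2 by norm_num, ← pow_mul, ← pow_succ']
      congr 1
    rw [e] at h
    have h2 : (2 * m + 1 + 1) * (2 * m + 1).choose m ^ 2 * 4 ≤
        (2 * m + 1 + 1 + 1) * ((2 * m + 1).choose m + (2 * m + 1).choose m) ^ 2 := by
      have : (2 * m + 1 + 1 + 1) * ((2 * m + 1).choose m + (2 * m + 1).choose m) ^ 2 =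
          (2 * m + 1 + 1) * (2 * m + 1).choose m ^ 2 * 4 + 4 * (2 * m + 1).choose m ^ 2 := by ring
      omega
    have h3 := h2.trans h
    omega

theorem bound (n x : ℕ) : (F n x : ℝ) / 2 ^ n ≤ x / √(n + 1) := by
  have h1 : (F n x : ℝ) ≤ x * (n.choose (n / 2) : ℝ) := by exact_mod_cast F_le n x
  have h2 : ((n : ℝ) + 1) * (n.choose (n / 2) : ℝ) ^ 2 ≤ (2 ^ n) ^ 2 := by
    have h := middle n
    have h3 : (((n + 1) * n.choose (n / 2) ^ 2 : ℕ) : ℝ) ≤ ((4 ^ n : ℕ) : ℝ) := by exact_mod_cast h
    push_cast at h3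
    rw [← pow_mul, mul_comm n 2, pow_mul]
    norm_num
    exact h3
  have hs : 0 < √((n : ℝ) + 1) := Real.sqrt_pos.2 (by positivity)
  have hsq : √((n : ℝ) + 1) ^ 2 = n + 1 := Real.sq_sqrt (by positivity)
  have h4 : (n.choose (n / 2) : ℝ) * √((n : ℝ) + 1) ≤ 2 ^ n := by
    refine le_of_sq_le_sq ?_ (by positivity)
    rw [mul_pow, hsq, mul_comm]
    exact h2
  rw [div_le_div_iff₀ (by positivity) hs]
  calc (F n x : ℝ) * √((n : ℝ) + 1) ≤ x * (n.choose (n / 2) : ℝ) * √((n : ℝ) + 1) :=
        mul_le_mul_of_nonneg_right h1 hs.le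
    _ = x * ((n.choose (n / 2) : ℝ) * √((n : ℝ) + 1)) := by ring
    _ ≤ x * 2 ^ n := mul_le_mul_of_nonneg_left h4 (Nat.cast_nonneg x)

theorem E_le (n : ℕ) : ∀ x : ℕ, walkLaw (E n x) ≤ ENNReal.ofReal ((F n x : ℝ) / 2 ^ n) := by
  induction n with
  | zero =>
    intro x
    cases x with
    | zero =>
      have h : E 0 ((0 : ℕ) : ℤ) = ∅ := by
        ext w
        simp [E]
      rw [h, measure_empty]
      exact bot_le
    | succ x =>
      refine prob_le_one.trans ?_
      rw [pow_zero, div_one, ← ENNReal.ofReal_one]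
      apply ENNReal.ofReal_le_ofReal
      exact_mod_cast F_zero x
  | succ n ih =>
    intro x
    cases x with
    | zero =>
      have h : E (n + 1) ((0 : ℕ) : ℤ) = ∅ := by
        rw [Set.eq_empty_iff_forall_notMem]
        intro w hw
        exact hw 0 (Nat.zero_le _) (by simp)
      rw [h, measure_empty]
      exact bot_le
    | succ x =>
      rw [E_succ n _ (by positivity)]
      have e1 : (((x + 1 : ℕ) : ℤ) - 1) = ((x : ℕ) : ℤ) := by push_cast; ring
      have e2 : (((x + 1 : ℕ) : ℤ) + 1) = ((x + 2 : ℕ) : ℤ) := by push_cast; ring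
      rw [e1, e2]
      have h2 : (2⁻¹ : ℝ≥0∞) = ENNReal.ofReal (2⁻¹) := by
        rw [ENNReal.ofReal_inv_of_pos (by norm_num)]
        simp
      rw [h2]
      refine (add_le_add (mul_le_mul_right (ih x) _) (mul_le_mul_right (ih (x + 2)) _)).trans ?_
      rw [← ENNReal.ofReal_mul (by norm_num), ← ENNReal.ofReal_mul (by norm_num),
        ← ENNReal.ofReal_add (by positivity) (by positivity)]
      apply ENNReal.ofReal_le_ofReal
      rw [F_succ]
      push_cast
      rw [pow_succ]
      apply le_of_eq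
      field_simp

end PosTail

/-- Discrete walk: PROOF. Let `p n x = walkLaw {w | ∀ m ≤ n, pos w m ≠ x}` for `x : ℕ`. Then `p (n + 1) x =
(p n (x - 1) + p n (x + 1)) / 2` for `x ≥ 1` (decomposition over the first step), so `2 ^ n * p n x` is at most the sum
over `y < x` of the numbers `D n y = n.choose ((n - y) / 2)` (`0` for `y > n`), which satisfy the corresponding
recurrence. These are at most `n.choose (n / 2) ≤ 2 ^ n / √(n + 1)`. -/
theorem pos_tail : ∃ K : ℝ, 0 ≤ K ∧ ∀ k n : ℕ,
    walkLaw {w | ∀ m ≤ n, pos w m ≠ k} ≤ ENNReal.ofReal (K * k / √(n + 1)) := by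
  refine ⟨1, zero_le_one, fun k n => ?_⟩
  refine (PosTail.E_le n k).trans (ENNReal.ofReal_le_ofReal ?_)
  rw [one_mul]
  exact PosTail.bound n k

end H949.FG
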