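import Pool.Agent.H949.FG.Defs
import Pool.Agent.H949.FG.Basic
import Pool.Agent.H949.FG.Split
import Pool.Agent.H949.FG.PosTail
set_option autoImplicit false

open MeasureTheory ProbabilityTheory
open scoped ENNReal

namespace H949.FG

namespace MeanBk

/-- the mean holding time is finite -/
theorem exp_mean : ∫⁻ x, ENNReal.ofReal x ∂(expMeasure 1) ≤ 4 := by
  have h : expMeasure 1 = volume.withDensity (exponentialPDF 1) := rfl
  have hm : Measurable (exponentialPDF 1) := (measurable_exponentialPDFReal 1).ennreal_ofReal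
  have hm2 : Measurable (exponentialPDF (1 / 2)) :=
    (measurable_exponentialPDFReal (1 / 2)).ennreal_ofReal
  rw [h, lintegral_withDensity_eq_lintegral_mul _ hm ENNReal.measurable_ofReal]
  calc ∫⁻ x, (exponentialPDF 1 * ENNReal.ofReal) x ≤ ∫⁻ x, 4 * exponentialPDF (1 / 2) x := by
        refine lintegral_mono fun x => ?_
        rw [Pi.mul_apply, exponentialPDF_eq, exponentialPDF_eq]
        by_cases hx : 0 ≤ x
        · rw [if_pos hx, if_pos hx, ← ENNReal.ofReal_mul (by positivity)]
          have h4 : (4 : ℝ≥0∞) = ENNReal.ofReal 4 := by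
            rw [ENNReal.ofReal_ofNat]
          rw [h4, ← ENNReal.ofReal_mul (by norm_num)]
          refine ENNReal.ofReal_le_ofReal ?_
          have h1 : x / 2 + 1 ≤ Real.exp (x / 2) := Real.add_one_le_exp _
          have h2 : Real.exp (-(1 * x)) = Real.exp (-(1 / 2 * x)) * Real.exp (-(x / 2)) := by
            rw [← Real.exp_add]
            congr 1
            ring
          have h3 : Real.exp (-(x / 2)) * Real.exp (x / 2) = 1 := by
            rw [← Real.exp_add, neg_add_cancel, Real.exp_zero]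
          have h5 : Real.exp (-(x / 2)) * x ≤ 2 := by
            have h6 : x ≤ 2 * Real.exp (x / 2) := by linarith
            calc Real.exp (-(x / 2)) * x ≤ Real.exp (-(x / 2)) * (2 * Real.exp (x / 2)) :=
                  mul_le_mul_of_nonneg_left h6 (Real.exp_pos _).le
              _ = 2 * (Real.exp (-(x / 2)) * Real.exp (x / 2)) := by ring
              _ = 2 := by rw [h3, mul_one]
          rw [h2]
          calc 1 * (Real.exp (-(1 / 2 * x)) * Real.exp (-(x / 2))) * x =
                Real.exp (-(1 / 2 * x)) * (Real.exp (-(x / 2)) * x) := by ring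
            _ ≤ Real.exp (-(1 / 2 * x)) * 2 :=
                mul_le_mul_of_nonneg_left h5 (Real.exp_pos _).le
            _ = 4 * (1 / 2 * Real.exp (-(1 / 2 * x))) := by ring
        · rw [if_neg hx, ENNReal.ofReal_zero, zero_mul]
          exact zero_le
    _ = 4 * ∫⁻ x, exponentialPDF (1 / 2) x := lintegral_const_mul _ hm2
    _ = 4 := by rw [lintegral_exponentialPDF_eq_one (by norm_num), mul_one]

/-- the walker does not visit `k` up to time `n` -/
def A (k : ℤ) (n : ℕ) : Set Walk := {w | ∀ m ≤ n, pos w m ≠ k}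

theorem measA (k : ℤ) (n : ℕ) : MeasurableSet (A k n) := by
  have : A k n = ⋂ m : ℕ, ⋂ (_ : m ≤ n), {w : Walk | pos w m = k}ᶜ := by
    ext w
    simp only [A, Set.mem_ofPred_eq, Set.mem_iInter, Set.mem_compl_iff]
  rw [this]
  refine MeasurableSet.iInter fun m => MeasurableSet.iInter fun _ => ?_
  exact ((measurable_pos m) (measurableSet_singleton k)).compl

/-- extension of a finite part of a walk -/
def ext (n : ℕ) (u : Finset.range n → ℝ × Bool) : Walk :=
  fun i => if h : i ∈ Finset.range n then u ⟨i, h⟩ else (0, true)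

theorem meas_ext (n : ℕ) : Measurable (ext n) := by
  refine measurable_pi_lambda _ fun i => ?_
  unfold ext
  by_cases h : i ∈ Finset.range n
  · simp only [dif_pos h]
    exact measurable_pi_apply _
  · simp only [dif_neg h]
    exact measurable_const

theorem ext_mem (k : ℤ) (n : ℕ) (v : Walk) :
    ext n (fun i : Finset.range n => v i) ∈ A k n ↔ v ∈ A k n := by
  have hp : ∀ m ≤ n, pos (ext n (fun i : Finset.range n => v i)) m = pos v m := by
    intro m hm
    unfold pos
    refine Finset.sum_congr rfl fun i hi => ?_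
    have h : i ∈ Finset.range n := Finset.mem_range.2 ((Finset.mem_range.1 hi).trans_le hm)
    unfold ext
    rw [dif_pos h]
  constructor
  · intro h m hm
    rw [← hp m hm]
    exact h m hm
  · intro h m hm
    rw [hp m hm]
    exact h m hm

/-- the holding time with index `n` is independent of the walk up to time `n` -/
theorem mean_ind (k : ℤ) (n : ℕ) :
    ∫⁻ v, ENNReal.ofReal (v n).1 * (A k n).indicator 1 v ∂walkLaw ≤ 4 * walkLaw (A k n) := by
  have hg : Measurable fun v : Walk => ENNReal.ofReal (v n).1 :=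
    (measurable_fst.comp (measurable_pi_apply n)).ennreal_ofReal
  have hf : Measurable fun v : Walk => (A k n).indicator (1 : Walk → ℝ≥0∞) v :=
    measurable_one.indicator (measA k n)
  have hi : IndepFun (fun v : Walk => ENNReal.ofReal (v n).1)
      (fun v : Walk => (A k n).indicator (1 : Walk → ℝ≥0∞) v) walkLaw := by
    have h1 : iIndepFun (fun (i : ℕ) (v : Walk) => v i) walkLaw :=
      iIndepFun_infinitePi (P := fun _ : ℕ => pairLaw) (X := fun _ x => x)
        (fun _ => measurable_id)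
    have h2 := h1.indepFun_finset {n} (Finset.range n) (by
      rw [Finset.disjoint_singleton_left]
      exact Finset.notMem_range_self) (fun i => measurable_pi_apply i)
    have h3 := h2.comp (φ := fun u : ({n} : Finset ℕ) → ℝ × Bool =>
        ENNReal.ofReal (u ⟨n, Finset.mem_singleton_self n⟩).1)
      (ψ := fun u : Finset.range n → ℝ × Bool =>
        (A k n).indicator (1 : Walk → ℝ≥0∞) (ext n u))
      ((measurable_fst.comp (measurable_pi_apply _)).ennreal_ofReal)
      (hf.comp (meas_ext n))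
    have e : ((fun u : Finset.range n → ℝ × Bool =>
        (A k n).indicator (1 : Walk → ℝ≥0∞) (ext n u)) ∘
        fun (v : Walk) (i : Finset.range n) => v i) =
        fun v : Walk => (A k n).indicator (1 : Walk → ℝ≥0∞) v := by
      funext v
      change (A k n).indicator (1 : Walk → ℝ≥0∞) (ext n fun i : Finset.range n => v i) = _
      by_cases hv : v ∈ A k n
      · rw [Set.indicator_of_mem hv, Set.indicator_of_mem ((ext_mem k n v).2 hv)]
        rfl
      · rw [Set.indicator_of_notMem hv,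
          Set.indicator_of_notMem (fun h => hv ((ext_mem k n v).1 h))]
    rw [e] at h3
    exact h3
  rw [lintegral_mul_eq_lintegral_mul_lintegral_of_indepFun'' hg.aemeasurable hf.aemeasurable hi,
    lintegral_indicator_one (measA k n)]
  refine mul_le_mul_left ?_ _
  have h4 : ∫⁻ v, ENNReal.ofReal (v n).1 ∂walkLaw = ∫⁻ p, ENNReal.ofReal p.1 ∂pairLaw :=
    (measurePreserving_eval_infinitePi (fun _ : ℕ => pairLaw) n).lintegral_comp
      (f := fun p : ℝ × Bool => ENNReal.ofReal p.1) measurable_fst.ennreal_ofReal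
  have h5 : ∫⁻ p, ENNReal.ofReal p.1 ∂pairLaw = ∫⁻ x, ENNReal.ofReal x ∂(expMeasure 1) :=
    (measurePreserving_fst (μ := expMeasure 1) (ν := coin)).lintegral_comp
      ENNReal.measurable_ofReal
  rw [h4, h5]
  exact exp_mean

/-- the factors -/
noncomputable def F (r₀ n r : ℕ) (v : Walk) : ℝ≥0∞ :=
  (if r = r₀ then ENNReal.ofReal (v n).1 else 1) * (A (7 - r) n).indicator 1 v

theorem measF (r₀ n r : ℕ) : Measurable (F r₀ n r) := by
  unfold F
  refine Measurable.mul ?_ (measurable_one.indicator (measA _ n))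
  by_cases h : r = r₀
  · simp only [if_pos h]
    exact (measurable_fst.comp (measurable_pi_apply n)).ennreal_ofReal
  · simp only [if_neg h]
    exact measurable_const

theorem F_le (r₀ n r : ℕ) : ∫⁻ v, F r₀ n r v ∂walkLaw ≤ 4 * walkLaw (A (7 - r) n) := by
  unfold F
  by_cases h : r = r₀
  · simp only [if_pos h]
    exact mean_ind _ n
  · simp only [if_neg h, one_mul]
    rw [lintegral_indicator_one (measA _ n)]
    exact le_mul_of_one_le_left zero_le (by norm_num)

theorem prod_le {K : ℝ} (hK : 0 ≤ K) (hKt : ∀ k n : ℕ,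
    walkLaw {w | ∀ m ≤ n, pos w m ≠ k} ≤ ENNReal.ofReal (K * k / √(n + 1))) (r₀ n : ℕ) :
    ∫⁻ w, ∏ r ∈ Finset.range 4, F r₀ n r (w r) ∂sysLaw ≤
      ENNReal.ofReal ((28 * K) ^ 4 * (1 / ((n : ℝ) + 1) ^ 2)) := by
  have h1 : iIndepFun (fun (r : ℕ) (w : ℕ → Walk) => F r₀ n r (w r)) sysLaw :=
    iIndepFun_infinitePi (P := fun _ : ℕ => walkLaw) (X := fun r v => F r₀ n r v)
      (fun r => measF r₀ n r)
  rw [lintegral_prod_eq_prod_lintegral_of_indepFun (Finset.range 4)
    (fun (r : ℕ) (w : ℕ → Walk) => F r₀ n r (w r)) h1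
    (fun r => (measF r₀ n r).comp (measurable_pi_apply r))]
  have h2 : ∀ r ∈ Finset.range 4, ∫⁻ w : ℕ → Walk, F r₀ n r (w r) ∂sysLaw ≤
      ENNReal.ofReal (28 * K / √((n : ℝ) + 1)) := by
    intro r hr
    have hr4 := Finset.mem_range.1 hr
    have h3 : ∫⁻ w : ℕ → Walk, F r₀ n r (w r) ∂sysLaw = ∫⁻ v, F r₀ n r v ∂walkLaw :=
      (measurePreserving_eval_infinitePi (fun _ : ℕ => walkLaw) r).lintegral_comp
        (measF r₀ n r)
    rw [h3]
    refine (F_le r₀ n r).trans ?_
    have h4 : walkLaw (A (7 - r) n) ≤ ENNReal.ofReal (K * ((7 - r : ℕ) : ℝ) / √((n : ℝ) + 1)) := by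
      have h5 := hKt (7 - r) n
      have h6 : (((7 - r : ℕ) : ℕ) : ℤ) = 7 - (r : ℤ) := by omega
      rw [h6] at h5
      exact h5
    have h7 : (4 : ℝ≥0∞) = ENNReal.ofReal 4 := by
      rw [ENNReal.ofReal_ofNat]
    calc 4 * walkLaw (A (7 - r) n) ≤
          4 * ENNReal.ofReal (K * ((7 - r : ℕ) : ℝ) / √((n : ℝ) + 1)) := mul_le_mul_right h4 _
      _ = ENNReal.ofReal (4 * (K * ((7 - r : ℕ) : ℝ) / √((n : ℝ) + 1))) := by
          rw [h7, ← ENNReal.ofReal_mul (by norm_num)]
      _ ≤ ENNReal.ofReal (28 * K / √((n : ℝ) + 1)) := by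
          refine ENNReal.ofReal_le_ofReal ?_
          have h8 : ((7 - r : ℕ) : ℝ) ≤ 7 := by exact_mod_cast Nat.sub_le 7 r
          rw [← mul_div_assoc]
          refine div_le_div_of_nonneg_right ?_ (Real.sqrt_nonneg _)
          nlinarith
  calc ∏ r ∈ Finset.range 4, ∫⁻ w : ℕ → Walk, F r₀ n r (w r) ∂sysLaw ≤
        ∏ _r ∈ Finset.range 4, ENNReal.ofReal (28 * K / √((n : ℝ) + 1)) :=
        Finset.prod_le_prod' h2
    _ = ENNReal.ofReal ((28 * K) ^ 4 * (1 / ((n : ℝ) + 1) ^ 2)) := by
        rw [Finset.prod_const, Finset.card_range, ← ENNReal.ofReal_pow (by positivity), div_pow]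
        congr 1
        have h9 : √((n : ℝ) + 1) ^ 4 = ((n : ℝ) + 1) ^ 2 := by
          rw [show (4 : ℕ) = 2 * 2 from rfl, pow_mul, Real.sq_sqrt (by positivity)]
        rw [h9]
        ring

end MeanBk

open MeanBk in
/-- The mean passage time of a block is finite. -/
theorem lintegral_Bk : ∫⁻ w, Bk w 0 ∂sysLaw ≠ ∞ := by
  obtain ⟨K, hK, hKt⟩ := pos_tail
  have hsum : ∑' n : ℕ, ENNReal.ofReal ((28 * K) ^ 4 * (1 / ((n : ℝ) + 1) ^ 2)) ≠ ∞ := by
    refine Summable.tsum_ofReal_ne_top ?_
    refine Summable.mul_left _ ?_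
    have := (summable_nat_add_iff 1).2 (Real.summable_one_div_nat_pow.2 (by norm_num : 1 < 2))
    simpa using this
  have hmeas : ∀ r₀ n : ℕ, Measurable fun w : ℕ → Walk =>
      ∏ r ∈ Finset.range 4, F r₀ n r (w r) := fun r₀ n =>
    Finset.measurable_prod _ fun r _ => (measF r₀ n r).comp (measurable_pi_apply r)
  have hint : ∀ r₀ : ℕ, ∫⁻ w, ∑' n : ℕ, ∏ r ∈ Finset.range 4, F r₀ n r (w r) ∂sysLaw ≠ ∞ := by
    intro r₀
    rw [lintegral_tsum fun n => (hmeas r₀ n).aemeasurable]
    exact ne_top_of_le_ne_top hsum (ENNReal.tsum_le_tsum fun n => prod_le hK hKt r₀ n)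
  -- the passage happens
  have hae : ∀ᵐ w ∂sysLaw, ∑' n : ℕ, ∏ r ∈ Finset.range 4, F 4 n r (w r) < ∞ :=
    ae_lt_top (Measurable.ennreal_tsum fun n => hmeas 4 n) (hint 4)
  have hpt : ∀ᵐ w ∂sysLaw, Bk w 0 ≤ ∑ r₀ ∈ Finset.range 4,
      ∑' n : ℕ, ∏ r ∈ Finset.range 4, F r₀ n r (w r) := by
    filter_upwards [hae] with w hw
    have hone : ∀ n : ℕ, (∀ r : ℕ, r < 4 → w r ∈ A (7 - r) n) → ∀ r₀ : ℕ,
        ∏ r ∈ Finset.range 4, F r₀ n r (w r) =
          if r₀ ∈ Finset.range 4 then ENNReal.ofReal (w r₀ n).1 else 1 := by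
      intro n hn r₀
      have : ∀ r ∈ Finset.range 4, F r₀ n r (w r) =
          if r = r₀ then ENNReal.ofReal (w r n).1 else 1 := by
        intro r hr
        unfold F
        rw [Set.indicator_of_mem (hn r (Finset.mem_range.1 hr)), Pi.one_apply, mul_one]
      rw [Finset.prod_congr rfl this, Finset.prod_ite_eq' (Finset.range 4) r₀]
    have hex : ∃ n, ¬ ∀ r : ℕ, r < 4 → w r ∈ A (7 - r) n := by
      by_contra hcon
      push Not at hcon
      refine hw.ne ?_
      have h1 : ∀ n : ℕ, ∏ r ∈ Finset.range 4, F 4 n r (w r) = 1 := by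
        intro n
        rw [hone n (fun r hr => hcon n r hr) 4, if_neg (by simp)]
      simp only [h1]
      exact ENNReal.tsum_const_eq_top_of_ne_zero one_ne_zero
    classical
    have hn := Nat.find_spec hex
    have hmin : ∀ m < Nat.find hex, ∀ r : ℕ, r < 4 → w r ∈ A (7 - r) m := fun m hm => by
      have := Nat.find_min hex hm
      exact not_not.1 this
    generalize Nat.find hex = N at hn hmin
    push Not at hn
    obtain ⟨r, hr, hrN⟩ := hn
    have hrN' : ∃ m ≤ N, pos (w r) m = 7 - r := by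
      unfold A at hrN
      simp only [Set.mem_ofPred_eq] at hrN
      push Not at hrN
      exact hrN
    obtain ⟨m, hm, hpm⟩ := hrN'
    have hmN : m = N := by
      by_contra hne
      exact hmin m (lt_of_le_of_ne hm hne) r hr m le_rfl hpm
    rw [hmN] at hpm
    have h1 : Bk w 0 ≤ hit (w r) (7 - r) := by
      unfold Bk
      refine (iInf_le _ (⟨r, hr⟩ : Fin 4)).trans ?_
      simp
    have h2 : hit (w r) (7 - r) ≤ ENNReal.ofReal (tim (w r) N) := hit_le hpm
    have h3 : ∀ N : ℕ, ENNReal.ofReal (tim (w r) N) ≤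
        ∑ n ∈ Finset.range N, ENNReal.ofReal (w r n).1 := by
      intro N
      induction N with
      | zero => simp
      | succ N ih =>
        rw [tim_succ, Finset.sum_range_succ]
        exact ENNReal.ofReal_add_le.trans (add_le_add_left ih _)
    have h4 : ∑ n ∈ Finset.range N, ENNReal.ofReal (w r n).1 =
        ∑ n ∈ Finset.range N, ∏ r' ∈ Finset.range 4, F r n r' (w r') := by
      refine Finset.sum_congr rfl fun n hn => ?_
      rw [hone n (hmin n (Finset.mem_range.1 hn)) r, if_pos (Finset.mem_range.2 hr)]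
    calc Bk w 0 ≤ ∑ n ∈ Finset.range N, ∏ r' ∈ Finset.range 4, F r n r' (w r') := by
          rw [← h4]
          exact h1.trans (h2.trans (h3 N))
      _ ≤ ∑' n : ℕ, ∏ r' ∈ Finset.range 4, F r n r' (w r') := ENNReal.sum_le_tsum _
      _ ≤ _ := Finset.single_le_sum
          (f := fun r₀ => ∑' n : ℕ, ∏ r ∈ Finset.range 4, F r₀ n r (w r))
          (fun _ _ => zero_le) (Finset.mem_range.2 hr)
  refine ne_top_of_le_ne_top ?_ (lintegral_mono_ae hpt)
  rw [lintegral_finsetSum _ fun r₀ _ => Measurable.ennreal_tsum fun n => hmeas r₀ n]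
  exact ENNReal.sum_ne_top.2 fun r₀ _ => hint r₀

end H949.FG
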