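import Pool.Agent.H949.FG.Defs
import Pool.Agent.H949.FG.MeanBk
set_option autoImplicit false

open MeasureTheory ProbabilityTheory
open scoped ENNReal

namespace H949.FG

/-- the passage time of the block number `i` as a function of its four walkers -/
noncomputable def bkF (i : ℕ) (v : Finset.Ico (4 * i) (4 * i + 4) → Walk) : ℝ≥0∞ :=
  ⨅ r : Fin 4, hit (v ⟨4 * i + r, Finset.mem_Ico.2 ⟨by omega, by omega⟩⟩) (7 - (r : ℤ))

theorem measurable_bkF (i : ℕ) : Measurable (bkF i) := by
  unfold bkF
  exact Measurable.iInf fun r => (measurable_hit _).comp (measurable_pi_apply _)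

theorem bkF_eq (w : ℕ → Walk) (i : ℕ) :
    Bk w i = bkF i (fun k : Finset.Ico (4 * i) (4 * i + 4) => w k) := rfl

theorem measurable_Bk (i : ℕ) : Measurable fun w : ℕ → Walk => Bk w i := by
  unfold Bk
  exact Measurable.iInf fun r => (measurable_hit _).comp (measurable_pi_apply _)

/-- different blocks are independent -/
theorem indep_Bk {i j : ℕ} (hij : i ≠ j) :
    IndepFun (fun w : ℕ → Walk => Bk w i) (fun w => Bk w j) sysLaw := by
  have h0 : iIndepFun (fun (i : ℕ) (w : ℕ → Walk) => w i) sysLaw := by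
    unfold sysLaw
    exact iIndepFun_infinitePi (P := fun _ : ℕ => walkLaw) (X := fun _ (x : Walk) => x)
      (fun _ => measurable_id)
  have hd : Disjoint (Finset.Ico (4 * i) (4 * i + 4)) (Finset.Ico (4 * j) (4 * j + 4)) := by
    rw [Finset.disjoint_left]
    intro a ha hb
    rw [Finset.mem_Ico] at ha hb
    omega
  have h1 := h0.indepFun_finset _ _ hd (fun i => measurable_pi_apply i)
  exact h1.comp (measurable_bkF i) (measurable_bkF j)

/-- the shift of the walkers preserves the law -/
theorem map_shift (k : ℕ) : sysLaw.map (fun (w : ℕ → Walk) i => w (k + i)) = sysLaw := by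
  unfold sysLaw
  exact Measure.map_infinitePi_infinitePi_of_inj (P := fun _ : ℕ => walkLaw)
    (f := fun i => k + i) (fun a b h => Nat.add_left_cancel h)

theorem Bk_shift (w : ℕ → Walk) (i : ℕ) : Bk w i = Bk (fun j => w (4 * i + j)) 0 := by
  unfold Bk
  simp only [Nat.mul_zero, Nat.zero_add]

/-- all blocks have the same law -/
theorem ident_Bk (i : ℕ) : IdentDistrib (fun w : ℕ → Walk => Bk w i) (fun w => Bk w 0)
    sysLaw sysLaw := by
  refine ⟨(measurable_Bk i).aemeasurable, (measurable_Bk 0).aemeasurable, ?_⟩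
  have hm : Measurable (fun (w : ℕ → Walk) j => w (4 * i + j)) :=
    measurable_pi_lambda _ fun j => measurable_pi_apply _
  have e : (fun w : ℕ → Walk => Bk w i) =
      (fun w => Bk w 0) ∘ (fun (w : ℕ → Walk) j => w (4 * i + j)) := by
    funext w
    exact Bk_shift w i
  rw [e, ← Measure.map_map (measurable_Bk 0) hm, map_shift]

/-- PROOF. `Bk w i` is a function of the walkers `4 i, .., 4 i + 3` only, so under `sysLaw` the variables `Bk w i`, `i : ℕ`, are
independent (`iIndepFun_infinitePi` and grouping of coordinates) and identically distributed, with finite mean (`lintegral_Bk`), so almost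
surely finite. (Pairwise independence is enough for Mathlib's strong law: `strong_law_ae_real` needs `Pairwise (IndepFun ..)`,
`IdentDistrib` with index `0`, `Integrable`; apply it to `fun i w => (Bk w i).toReal`.) Let `C₁ = mean + 1`; almost surely
`∑ i < m, (Bk w i).toReal ≤ C₁ m` for all large `m`, hence `⨆ m, (∑ i < m, Bk w i - C₁ m) < ∞` almost surely. So the sets
`{w | ∀ m, ∑ i < m, Bk w i ≤ ofReal (c + C₁ m)}`, `c : ℕ`, increase to a set of full measure, and one of them has
probability at least `1 / 2`. -/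
theorem growth : ∃ c₁ C₁ : ℝ, 0 ≤ c₁ ∧ 0 ≤ C₁ ∧
    1 / 2 ≤ sysLaw {w | ∀ m : ℕ, ∑ i ∈ Finset.range m, Bk w i ≤ ENNReal.ofReal (c₁ + C₁ * m)} := by
  have hfin0 : ∀ᵐ w ∂sysLaw, Bk w 0 < ∞ := ae_lt_top (measurable_Bk 0) lintegral_Bk
  have hfin : ∀ᵐ w ∂sysLaw, ∀ i, Bk w i < ∞ := by
    rw [ae_all_iff]
    intro i
    exact (ident_Bk i).symm.ae_snd (p := fun x => x < ∞) measurableSet_Iio hfin0
  have hint : Integrable (fun w : ℕ → Walk => (Bk w 0).toReal) sysLaw :=
    integrable_toReal_of_lintegral_ne_top (measurable_Bk 0).aemeasurable lintegral_Bk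
  have hslln := strong_law_ae_real (μ := sysLaw) (fun i (w : ℕ → Walk) => (Bk w i).toReal) hint
    (fun i j hij => (indep_Bk hij).comp ENNReal.measurable_toReal ENNReal.measurable_toReal)
    (fun i => (ident_Bk i).comp ENNReal.measurable_toReal)
  set M : ℝ := ∫ w, (Bk w 0).toReal ∂sysLaw with hM
  have hM0 : 0 ≤ M := integral_nonneg fun w => ENNReal.toReal_nonneg
  set A : ℕ → Set (ℕ → Walk) := fun c =>
    {w | ∀ m : ℕ, ∑ i ∈ Finset.range m, Bk w i ≤ ENNReal.ofReal ((c : ℝ) + (M + 1) * m)} with hA
  have hAmono : Monotone A := by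
    intro c c' hcc w hw m
    refine (hw m).trans (ENNReal.ofReal_le_ofReal ?_)
    have : (c : ℝ) ≤ c' := by exact_mod_cast hcc
    linarith
  have hfull : ∀ᵐ w ∂sysLaw, w ∈ ⋃ c, A c := by
    filter_upwards [hfin, hslln] with w hw hlim
    have hev : ∀ᶠ n : ℕ in Filter.atTop,
        (∑ i ∈ Finset.range n, (Bk w i).toReal) / n < M + 1 :=
      hlim.eventually (gt_mem_nhds (by linarith : M < M + 1))
    obtain ⟨N, hN⟩ := Filter.eventually_atTop.1 hev
    set S : ℝ := ∑ i ∈ Finset.range (N + 1), (Bk w i).toReal with hS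
    obtain ⟨c, hc⟩ := exists_nat_ge S
    refine Set.mem_iUnion.2 ⟨c, fun m => ?_⟩
    have hreal : ∑ i ∈ Finset.range m, (Bk w i).toReal ≤ (c : ℝ) + (M + 1) * m := by
      by_cases hm : m ≤ N
      · have h1 : ∑ i ∈ Finset.range m, (Bk w i).toReal ≤ S := by
          refine Finset.sum_le_sum_of_subset_of_nonneg ?_ fun i _ _ => ENNReal.toReal_nonneg
          intro a ha
          rw [Finset.mem_range] at ha ⊢
          omega
        have h2 : 0 ≤ (M + 1) * m := by positivity
        linarith
      · have hmpos : (0 : ℝ) < m := by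
          have : 0 < m := by omega
          exact_mod_cast this
        have h1 := hN m (by omega)
        rw [div_lt_iff₀ hmpos] at h1
        have h2 : (0 : ℝ) ≤ c := Nat.cast_nonneg c
        linarith
    have hsum : ∑ i ∈ Finset.range m, Bk w i =
        ENNReal.ofReal (∑ i ∈ Finset.range m, (Bk w i).toReal) := by
      rw [ENNReal.ofReal_sum_of_nonneg fun i _ => ENNReal.toReal_nonneg]
      exact Finset.sum_congr rfl fun i _ => (ENNReal.ofReal_toReal (hw i).ne).symm
    rw [hsum]
    exact ENNReal.ofReal_le_ofReal hreal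
  have hone : sysLaw (⋃ c, A c) = 1 :=
    (measure_congr (Filter.eventuallyEq_univ.2 hfull)).trans measure_univ
  have htend := tendsto_measure_iUnion_atTop (μ := sysLaw) hAmono
  rw [hone] at htend
  have hhalf : (1 / 2 : ℝ≥0∞) < 1 := by
    rw [one_div]
    exact ENNReal.one_half_lt_one
  obtain ⟨c, hc⟩ := (htend.eventually (lt_mem_nhds hhalf)).exists
  exact ⟨c, M + 1, Nat.cast_nonneg c, by linarith, hc.le⟩

end H949.FG
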