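import Pool.Agent.H949.FG.Defs
import Pool.Agent.H949.FG.Chern
set_option autoImplicit false

open MeasureTheory ProbabilityTheory
open scoped ENNReal

namespace H949.FG

theorem cosh_sub_one_le {θ : ℝ} (h0 : 0 ≤ θ) (h1 : θ ≤ 1) : Real.cosh θ - 1 ≤ θ ^ 2 := by
  have hx0 : 0 ≤ θ ^ 2 / 2 := by positivity
  have hx1 : θ ^ 2 / 2 ≤ 1 / 2 := by nlinarith
  have h2 : Real.cosh θ ≤ Real.exp (θ ^ 2 / 2) := Real.cosh_le_exp_half_sq θ
  have h3 : Real.exp (θ ^ 2 / 2) ≤ 1 / (1 - θ ^ 2 / 2) :=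
    Real.exp_bound_div_one_sub_of_interval hx0 (by linarith)
  have h4 : 1 / (1 - θ ^ 2 / 2) ≤ 1 + θ ^ 2 := by
    rw [div_le_iff₀ (by linarith)]
    nlinarith
  linarith

/-- PROOF. Choose `θ = min 1 (1 / (4 (C + 1)))`, then `2 (cosh θ - 1) C ≤ 2 θ ^ 2 C ≤ θ / 2` (`cosh θ - 1 ≤ θ ^ 2`
for `0 ≤ θ ≤ 1`). Union bound over `q` and `hit_chernoff` with `k = y + q + 1`,
`s = c₀ + C q`: the sum is at most `K exp (2 (cosh θ - 1) c₀) ∑ q, exp (-θ (y + q + 1) + (θ / 2) q)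
≤ K' exp (-θ y)` with `K' = K exp (2 (cosh θ - 1) c₀) / (1 - exp (-θ / 2))`. -/
theorem stay_tail (c₀ C : ℝ) (hc : 0 ≤ c₀) (hC : 0 ≤ C) : ∃ θ K : ℝ, 0 < θ ∧ 0 ≤ K ∧ ∀ y : ℕ,
    walkLaw {w | ∃ q : ℕ, hit w (-(y : ℤ) - (q + 1)) ≤ ENNReal.ofReal (c₀ + C * q)} ≤
      ENNReal.ofReal (K * Real.exp (-(θ * y))) := by
  obtain ⟨θ, hθ0, hθ1, hθC⟩ : ∃ θ : ℝ, 0 < θ ∧ θ ≤ 1 ∧ θ * (4 * (C + 1)) ≤ 1 := by
    have h4 : (0 : ℝ) < 4 * (C + 1) := by positivity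
    refine ⟨min 1 (1 / (4 * (C + 1))), by positivity, min_le_left _ _, ?_⟩
    have := min_le_right (1 : ℝ) (1 / (4 * (C + 1)))
    rwa [le_div_iff₀ h4] at this
  obtain ⟨K, hK0, hK⟩ := hit_chernoff hθ0
  set ε : ℝ := 2 * (Real.cosh θ - 1) with hε
  have hε0 : 0 ≤ ε := by
    have := Real.one_le_cosh θ
    rw [hε]; linarith
  have hεC : ε * C ≤ θ / 2 := by
    have h1 : ε ≤ 2 * θ ^ 2 := by
      have := cosh_sub_one_le hθ0.le hθ1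
      rw [hε]; linarith
    have h2 : ε * C ≤ 2 * θ ^ 2 * C := mul_le_mul_of_nonneg_right h1 hC
    have h3 : θ * (θ * (4 * (C + 1))) ≤ θ * 1 := mul_le_mul_of_nonneg_left hθC hθ0.le
    nlinarith [sq_nonneg θ]
  set r : ℝ := Real.exp (-(θ / 2)) with hr
  have hr0 : 0 ≤ r := (Real.exp_pos _).le
  have hr1 : r < 1 := by
    rw [hr, Real.exp_lt_one_iff]; linarith
  set A : ℝ := K * Real.exp (ε * c₀) with hA
  have hA0 : 0 ≤ A := mul_nonneg hK0 (Real.exp_pos _).le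
  refine ⟨θ, A * (1 - r)⁻¹, hθ0, mul_nonneg hA0 (inv_nonneg.2 (by linarith)), fun y => ?_⟩
  have hset : {w | ∃ q : ℕ, hit w (-(y : ℤ) - (q + 1)) ≤ ENNReal.ofReal (c₀ + C * q)} =
      ⋃ q : ℕ, {w | hit w (-((y + q + 1 : ℕ) : ℤ)) ≤ ENNReal.ofReal (c₀ + C * q)} := by
    ext w
    have e : ∀ q : ℕ, (-(y : ℤ) - (q + 1)) = -((y + q + 1 : ℕ) : ℤ) := fun q => by
      push_cast; ring
    simp only [Set.mem_ofPred_eq, Set.mem_iUnion, e]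
  rw [hset]
  have hterm : ∀ q : ℕ,
      walkLaw {w | hit w (-((y + q + 1 : ℕ) : ℤ)) ≤ ENNReal.ofReal (c₀ + C * q)} ≤
        ENNReal.ofReal (A * Real.exp (-(θ * y)) * r ^ q) := by
    intro q
    refine (hK (y + q + 1) (c₀ + C * q) (by positivity)).trans (ENNReal.ofReal_le_ofReal ?_)
    have h1 : ε * C * q ≤ θ / 2 * q := mul_le_mul_of_nonneg_right hεC (Nat.cast_nonneg q)
    have h2 : -(θ * ((y + q + 1 : ℕ) : ℝ)) + ε * (c₀ + C * q) ≤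
        ε * c₀ + -(θ * y) + q * -(θ / 2) := by
      push_cast
      nlinarith
    calc K * Real.exp (-(θ * ((y + q + 1 : ℕ) : ℝ)) + ε * (c₀ + C * q))
        ≤ K * Real.exp (ε * c₀ + -(θ * y) + q * -(θ / 2)) :=
          mul_le_mul_of_nonneg_left (Real.exp_le_exp.2 h2) hK0
      _ = A * Real.exp (-(θ * y)) * r ^ q := by
          rw [hA, hr, ← Real.exp_nat_mul, Real.exp_add, Real.exp_add]
          ring
  calc walkLaw (⋃ q : ℕ, {w | hit w (-((y + q + 1 : ℕ) : ℤ)) ≤ ENNReal.ofReal (c₀ + C * q)})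
      ≤ ∑' q : ℕ,
        walkLaw {w | hit w (-((y + q + 1 : ℕ) : ℤ)) ≤ ENNReal.ofReal (c₀ + C * q)} :=
        measure_iUnion_le _
    _ ≤ ∑' q : ℕ, ENNReal.ofReal (A * Real.exp (-(θ * y)) * r ^ q) :=
        ENNReal.tsum_le_tsum hterm
    _ = ENNReal.ofReal (∑' q : ℕ, A * Real.exp (-(θ * y)) * r ^ q) := by
        rw [ENNReal.ofReal_tsum_of_nonneg (fun q => by positivity)
          ((summable_geometric_of_lt_one hr0 hr1).mul_left _)]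
    _ = ENNReal.ofReal (A * (1 - r)⁻¹ * Real.exp (-(θ * y))) := by
        rw [tsum_mul_left, tsum_geometric_of_lt_one hr0 hr1]
        congr 1
        ring

end H949.FG
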