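import Pool.Agent.H949.FG.Defs
import Pool.Agent.H949.FG.Basic
import Pool.Agent.H949.FG.Split
import Pool.Agent.H949.FG.StayTail
set_option autoImplicit false

open MeasureTheory ProbabilityTheory
open scoped ENNReal

namespace H949.FG

lemma kickPos_add (w : Walk) (M m : ℕ) : pos w (M + m) = pos w M + pos (fun j => w (M + j)) m := by
  simp [pos, Finset.sum_range_add]

lemma kickTim_add (w : Walk) (M m : ℕ) : tim w (M + m) = tim w M + tim (fun j => w (M + j)) m := by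
  simp [tim, Finset.sum_range_add]

lemma kick_pos_eq {w : Walk} {M : ℕ} (h : ∀ i < M, (w i).2 = true) {n : ℕ} (hn : n ≤ M) :
    pos w n = n := by
  induction n with
  | zero => simp
  | succ n ih =>
    rw [pos_succ, ih (by omega), h n (by omega)]
    simp [stp]

lemma kick_hit_shift {w : Walk} (hw : ∀ i, 0 < (w i).1) {M : ℕ} (h : ∀ i < M, (w i).2 = true) {k : ℤ}
    (hk : k < 0) : hit (fun j => w (M + j)) (k - M) ≤ hit w k := by
  conv_rhs => unfold hit
  refine le_iInf₂ fun n hn => ?_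
  by_cases hnM : n ≤ M
  · rw [kick_pos_eq h hnM] at hn
    omega
  · obtain ⟨m, rfl⟩ := Nat.exists_eq_add_of_le (show M ≤ n by omega)
    rw [kickPos_add, kick_pos_eq h le_rfl] at hn
    refine (hit_le (n := m) (by omega)).trans (ENNReal.ofReal_le_ofReal ?_)
    rw [kickTim_add]
    have h0 : 0 ≤ tim w M := by
      unfold tim
      exact Finset.sum_nonneg fun i _ => (hw i).le
    linarith

lemma kick_pairLaw {x : ℝ} (hx : 0 < x) : 0 < pairLaw {p : ℝ × Bool | p.2 = true ∧ p.1 ≤ x} := by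
  have hset : {p : ℝ × Bool | p.2 = true ∧ p.1 ≤ x} = Set.Iic x ×ˢ {true} := by
    ext p
    simp [and_comm]
  rw [hset, pairLaw, Measure.prod_prod]
  refine ENNReal.mul_pos ?_ ?_
  · have h1 : (expMeasure 1).real (Set.Iic x) = 1 - Real.exp (-(1 * x)) := by
      rw [← cdf_eq_real, cdf_expMeasure_eq one_pos, if_pos hx.le]
    have h2 : Real.exp (-(1 * x)) < 1 := by
      rw [Real.exp_lt_one_iff]
      linarith
    intro h0
    rw [Measure.real, h0] at h1
    simp only [ENNReal.toReal_zero] at h1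
    linarith
  · simp [coin]

/-- PROOF. Take `θ, K` from `stay_tail` and `M₀ ≥ 1` with `K exp (-θ M₀) < 1`. Let `M ≥ M₀`, `y : ℕ`. Let
`A = {p | p.2 = true ∧ p.1 ≤ β / M}` (`pairLaw A > 0`) and let
`B = {v | ∀ q, ofReal (c₀ + C q) < hit v (-(y + M) - (q + 1))}`, `walkLaw B > 0` by `stay_tail`.
By `walkLaw_split` the event `{w | (∀ i < M, w i ∈ A) ∧ (fun j => w (M + j)) ∈ B}` has positive probability. -/
theorem kick_pos {β : ℝ} (hβ : 0 < β) (c₀ C : ℝ) (hc : 0 ≤ c₀) (hC : 0 ≤ C) :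
    ∃ M₀ : ℕ, 1 ≤ M₀ ∧ ∀ M ≥ M₀, ∀ y : ℕ,
    0 < walkLaw {w | (∀ i < M, (w i).2 = true ∧ (w i).1 ≤ β / M) ∧
      ∀ q : ℕ, ENNReal.ofReal (c₀ + C * q) < hit w (-(y : ℤ) - (q + 1))} := by
  obtain ⟨θ, K, hθ, hK, htail⟩ := stay_tail c₀ C hc hC
  refine ⟨⌈K / θ⌉₊ + 1, by omega, fun M hM y => ?_⟩
  have hM1 : 1 ≤ M := by omega
  have hMpos : (0 : ℝ) < M := by exact_mod_cast hM1
  have hKM : K ≤ θ * M := by
    have h1 : K / θ ≤ M := (Nat.le_ceil _).trans (by exact_mod_cast (by omega : ⌈K / θ⌉₊ ≤ M))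
    rw [div_le_iff₀ hθ] at h1
    linarith
  -- the bad set
  set T : Set Walk := {v | ∃ q : ℕ, hit v (-((y + M : ℕ) : ℤ) - (q + 1)) ≤ ENNReal.ofReal (c₀ + C * q)}
    with hT
  have hTm : MeasurableSet T := by
    have : T = ⋃ q : ℕ, {v | hit v (-((y + M : ℕ) : ℤ) - (q + 1)) ≤ ENNReal.ofReal (c₀ + C * q)} := by
      ext v
      simp [hT]
    rw [this]
    exact MeasurableSet.iUnion fun q => measurableSet_le (measurable_hit _) measurable_const
  have hTlt : walkLaw T < 1 := by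
    refine (htail (y + M)).trans_lt ?_
    rw [ENNReal.ofReal_lt_one]
    have h1 : θ * ((y + M : ℕ) : ℝ) + 1 ≤ Real.exp (θ * ((y + M : ℕ) : ℝ)) := Real.add_one_le_exp _
    have h2 : K < Real.exp (θ * ((y + M : ℕ) : ℝ)) := by
      push_cast at h1 ⊢
      have : 0 ≤ θ * (y : ℝ) := by positivity
      nlinarith
    rw [Real.exp_neg, ← div_eq_mul_inv, div_lt_one (Real.exp_pos _)]
    exact h2
  set B : Set Walk := Tᶜ with hB
  have hBm : MeasurableSet B := hTm.compl
  have hBpos : 0 < walkLaw B := by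
    rw [hB, prob_compl_eq_one_sub hTm]
    exact tsub_pos_of_lt hTlt
  have hAm : MeasurableSet {p : ℝ × Bool | p.2 = true ∧ p.1 ≤ β / M} := by
    have hset : {p : ℝ × Bool | p.2 = true ∧ p.1 ≤ β / M} = Set.Iic (β / M) ×ˢ {true} := by
      ext p
      simp [and_comm]
    rw [hset]
    exact measurableSet_Iic.prod (measurableSet_singleton _)
  have hsplit := walkLaw_split M (fun _ => {p : ℝ × Bool | p.2 = true ∧ p.1 ≤ β / M}) (fun _ => hAm) B hBm
  have hpos : 0 < walkLaw {w | (∀ i < M, w i ∈ {p : ℝ × Bool | p.2 = true ∧ p.1 ≤ β / M}) ∧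
      (fun j => w (M + j)) ∈ B} := by
    rw [hsplit]
    refine ENNReal.mul_pos ?_ hBpos.ne'
    rw [Finset.prod_const]
    exact pow_ne_zero _ (kick_pairLaw (div_pos hβ hMpos)).ne'
  refine hpos.trans_le (measure_mono_ae ?_)
  filter_upwards [walk_posTime] with w hw hE
  obtain ⟨hE1, hE2⟩ := hE
  refine ⟨fun i hi => hE1 i hi, fun q => ?_⟩
  have hlt : ENNReal.ofReal (c₀ + C * q) <
      hit (fun j => w (M + j)) (-((y + M : ℕ) : ℤ) - (q + 1)) := by
    by_contra hcon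
    exact hE2 ⟨q, not_lt.1 hcon⟩
  have hle := kick_hit_shift hw (M := M) (fun i hi => (hE1 i hi).1) (k := -(y : ℤ) - (q + 1)) (by omega)
  have he : (-(y : ℤ) - (q + 1)) - M = -((y + M : ℕ) : ℤ) - (q + 1) := by push_cast; ring
  rw [he] at hle
  exact hlt.trans_le hle

end H949.FG
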