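import Pool.Agent.H949.FG.Defs
import Pool.Agent.H949.FG.Kick
import Pool.Agent.H949.FG.GrowDet
import Pool.Agent.H949.FG.Cut
import Pool.Agent.H949.FG.Growth
set_option autoImplicit false

open MeasureTheory ProbabilityTheory
open scoped ENNReal

namespace H949.FG

namespace GP

lemma measurable_Bk (i : ℕ) : Measurable fun w : ℕ → Walk => Bk w i := by
  unfold Bk
  exact Measurable.iInf fun r => (measurable_hit _).comp (measurable_pi_apply _)

lemma Bk_shift (w : ℕ → Walk) (l i : ℕ) : Bk w (l + i) = Bk (fun j => w (4 * l + j)) i := by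
  unfold Bk
  refine iInf_congr fun r => ?_
  have h : 4 * (l + i) + (r : ℕ) = 4 * l + (4 * i + r) := by ring
  rw [h]

lemma tail_small (θ K : ℝ) (hθ : 0 < θ) (hK : 0 ≤ K) : ∃ l : ℕ, 1 ≤ l ∧
    ∑' j : ℕ, ENNReal.ofReal (K * Real.exp (-(θ * ((4 * l + j : ℕ) : ℝ)))) ≤
      ENNReal.ofReal (1 / 4) := by
  set ρ : ℝ := Real.exp (-θ) with hρ
  have hρ0 : 0 ≤ ρ := (Real.exp_pos _).le
  have hρ1 : ρ < 1 := by
    rw [hρ]
    rw [← Real.exp_zero]
    exact Real.exp_lt_exp.2 (by linarith)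
  have ht : Filter.Tendsto (fun n : ℕ => ρ ^ n * (K * (1 - ρ)⁻¹)) Filter.atTop (nhds 0) := by
    have := (tendsto_pow_atTop_nhds_zero_of_lt_one hρ0 hρ1).mul_const (K * (1 - ρ)⁻¹)
    rwa [zero_mul] at this
  obtain ⟨N, hN⟩ := Filter.eventually_atTop.1
    (ht.eventually_lt_const (by norm_num : (0 : ℝ) < 1 / 4))
  refine ⟨N + 1, by omega, ?_⟩
  have hf : ∀ j : ℕ, K * Real.exp (-(θ * ((4 * (N + 1) + j : ℕ) : ℝ))) =
      (K * ρ ^ (4 * (N + 1))) * ρ ^ j := by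
    intro j
    rw [mul_assoc, ← pow_add, hρ, ← Real.exp_nat_mul]
    congr 2
    ring
  have hsum : Summable fun j : ℕ => (K * ρ ^ (4 * (N + 1))) * ρ ^ j :=
    (summable_geometric_of_lt_one hρ0 hρ1).mul_left _
  simp only [hf]
  rw [← ENNReal.ofReal_tsum_of_nonneg (fun j => by positivity) hsum]
  refine ENNReal.ofReal_le_ofReal ?_
  rw [tsum_mul_left, tsum_geometric_of_lt_one hρ0 hρ1]
  have h1 := hN (4 * (N + 1)) (by omega)
  calc K * ρ ^ (4 * (N + 1)) * (1 - ρ)⁻¹ = ρ ^ (4 * (N + 1)) * (K * (1 - ρ)⁻¹) := by ring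
    _ ≤ 1 / 4 := h1.le

lemma sys_coord (j : ℕ) {T : Set Walk} (hT : MeasurableSet T) :
    sysLaw {v : ℕ → Walk | v j ∈ T} = walkLaw T :=
  (measurePreserving_eval_infinitePi (fun _ : ℕ => walkLaw) j).measure_preimage
    hT.nullMeasurableSet

lemma measurable_stay (c₀ C : ℝ) (k : ℕ → ℤ) :
    MeasurableSet {w : Walk | ∃ q : ℕ, hit w (k q) ≤ ENNReal.ofReal (c₀ + C * q)} := by
  have h : {w : Walk | ∃ q : ℕ, hit w (k q) ≤ ENNReal.ofReal (c₀ + C * q)} =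
      ⋃ q : ℕ, {w : Walk | hit w (k q) ≤ ENNReal.ofReal (c₀ + C * q)} := by
    ext w
    simp
  rw [h]
  exact MeasurableSet.iUnion fun q => measurableSet_le (measurable_hit _) measurable_const

lemma measurable_stay' (c₀ C : ℝ) (k : ℕ → ℤ) :
    MeasurableSet {w : Walk | ∀ q : ℕ, ENNReal.ofReal (c₀ + C * q) < hit w (k q)} := by
  have h : {w : Walk | ∀ q : ℕ, ENNReal.ofReal (c₀ + C * q) < hit w (k q)} =
      {w : Walk | ∃ q : ℕ, hit w (k q) ≤ ENNReal.ofReal (c₀ + C * q)}ᶜ := by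
    ext w
    simp
  rw [h]
  exact (measurable_stay c₀ C k).compl

lemma measurable_kick (M : ℕ) (b : ℝ) :
    MeasurableSet {w : Walk | ∀ i < M, (w i).2 = true ∧ (w i).1 ≤ b} := by
  have h : {w : Walk | ∀ i < M, (w i).2 = true ∧ (w i).1 ≤ b} =
      ⋂ i : ℕ, ⋂ _ : i < M, {w : Walk | (w i).2 = true} ∩ {w : Walk | (w i).1 ≤ b} := by
    ext w
    simp only [Set.mem_ofPred_eq, Set.mem_iInter, Set.mem_inter_iff]
  rw [h]
  refine MeasurableSet.iInter fun i => MeasurableSet.iInter fun _ => MeasurableSet.inter ?_ ?_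
  · have h1 : Measurable fun w : Walk => (w i).2 := measurable_snd.comp (measurable_pi_apply i)
    exact h1 (measurableSet_singleton true)
  · have h1 : Measurable fun w : Walk => (w i).1 := measurable_fst.comp (measurable_pi_apply i)
    exact measurableSet_le h1 measurable_const

/-- the growth condition -/
def S1 (c₁ C₁ : ℝ) : Set (ℕ → Walk) :=
  {w | ∀ m : ℕ, ∑ i ∈ Finset.range m, Bk w i ≤ ENNReal.ofReal (c₁ + C₁ * m)}

/-- the walkers which start at `a, a + 1, ..` stay away from the left -/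
def S2 (a : ℕ) (c₀ C : ℝ) : Set (ℕ → Walk) :=
  {v | ∀ j q : ℕ, ENNReal.ofReal (c₀ + C * q) < hit (v j) (-((a + j : ℕ) : ℤ) - (q + 1))}

lemma measurable_S1 (c₁ C₁ : ℝ) : MeasurableSet (S1 c₁ C₁) := by
  have h : S1 c₁ C₁ = ⋂ m : ℕ, {w : ℕ → Walk | ∑ i ∈ Finset.range m, Bk w i ≤
      ENNReal.ofReal (c₁ + C₁ * m)} := by
    ext w
    simp [S1]
  rw [h]
  refine MeasurableSet.iInter fun m => measurableSet_le ?_ measurable_const
  exact Finset.measurable_sum _ fun i _ => measurable_Bk i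

lemma S2_compl (a : ℕ) (c₀ C : ℝ) : (S2 a c₀ C)ᶜ = ⋃ j : ℕ, {v : ℕ → Walk | v j ∈
    {w : Walk | ∃ q : ℕ, hit w (-((a + j : ℕ) : ℤ) - (q + 1)) ≤ ENNReal.ofReal (c₀ + C * q)}} := by
  ext v
  simp only [S2, Set.mem_compl_iff, Set.mem_ofPred_eq, Set.mem_iUnion, not_forall, not_lt]

lemma measurable_S2 (a : ℕ) (c₀ C : ℝ) : MeasurableSet (S2 a c₀ C) := by
  have h : MeasurableSet (S2 a c₀ C)ᶜ := by
    rw [S2_compl]
    refine MeasurableSet.iUnion fun j => ?_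
    exact (measurable_pi_apply j) (measurable_stay c₀ C fun q => -((a + j : ℕ) : ℤ) - (q + 1))
  exact h.of_compl

end GP

open GP in
theorem good_pos {β : ℝ} (hβ : 0 < β) : ∃ c₀ C : ℝ, ∃ G : Set (ℕ → Walk), MeasurableSet G ∧
    0 < sysLaw G ∧ ∀ w ∈ G, Good β c₀ C w := by
  obtain ⟨c₁, C₁, hc₁, hC₁, hg⟩ := growth
  have hc₀ : 0 ≤ 1 + c₁ / β := by positivity
  have hC : 0 ≤ C₁ / β := by positivity
  obtain ⟨θ, K, hθ, hK, hst⟩ := stay_tail (1 + c₁ / β) (C₁ / β) hc₀ hC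
  obtain ⟨M₀, hM₀, hkick⟩ := kick_pos hβ (1 + c₁ / β) (C₁ / β) hc₀ hC
  obtain ⟨l, hl, htail⟩ := tail_small θ K hθ hK
  set B : Set (ℕ → Walk) := S1 c₁ C₁ ∩ S2 (4 * l) (1 + c₁ / β) (C₁ / β) with hBdef
  have hBm : MeasurableSet B := (measurable_S1 _ _).inter (measurable_S2 _ _ _)
  have hS2 : sysLaw (S2 (4 * l) (1 + c₁ / β) (C₁ / β))ᶜ ≤ ENNReal.ofReal (1 / 4) := by
    rw [S2_compl]
    refine (measure_iUnion_le _).trans (le_trans (ENNReal.tsum_le_tsum fun j => ?_) htail)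
    rw [sys_coord j (measurable_stay _ _ fun q => -((4 * l + j : ℕ) : ℤ) - (q + 1))]
    exact hst (4 * l + j)
  have hB0 : 0 < sysLaw B := by
    rw [pos_iff_ne_zero]
    intro h0
    have h1 : S1 c₁ C₁ ⊆ B ∪ (S2 (4 * l) (1 + c₁ / β) (C₁ / β))ᶜ := by
      intro v hv
      by_cases h : v ∈ S2 (4 * l) (1 + c₁ / β) (C₁ / β)
      · exact Or.inl ⟨hv, h⟩
      · exact Or.inr h
    have h2 : sysLaw (S1 c₁ C₁) ≤ ENNReal.ofReal (1 / 4) := by
      refine (measure_mono h1).trans ((measure_union_le _ _).trans ?_)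
      rw [h0, zero_add]
      exact hS2
    have h3 : (1 / 2 : ℝ≥0∞) ≤ ENNReal.ofReal (1 / 4) := le_trans hg h2
    have h4 : (1 / 2 : ℝ≥0∞) = ENNReal.ofReal (1 / 2) := by
      rw [ENNReal.ofReal_div_of_pos (by norm_num)]
      simp
    rw [h4, ENNReal.ofReal_le_ofReal_iff (by norm_num)] at h3
    norm_num at h3
  obtain ⟨M, hM⟩ : ∃ M : ℕ, M = max M₀ (4 * l + 3) := ⟨_, rfl⟩
  have hMM₀ : M₀ ≤ M := by rw [hM]; exact le_max_left _ _
  have hM4 : 4 * l + 3 ≤ M := by rw [hM]; exact le_max_right _ _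
  let A : ℕ → Set Walk := fun y => {w | (∀ i < M, (w i).2 = true ∧ (w i).1 ≤ β / M) ∧
      ∀ q : ℕ, ENNReal.ofReal ((1 + c₁ / β) + (C₁ / β) * q) < hit w (-(y : ℤ) - (q + 1))}
  have hAm : ∀ y, MeasurableSet (A y) := fun y =>
    (measurable_kick M (β / M)).inter (measurable_stay' _ _ fun q => -(y : ℤ) - (q + 1))
  have hA0 : ∀ y, 0 < walkLaw (A y) := fun y => hkick M hMM₀ y
  set G₀ : Set (ℕ → Walk) := {w | (∀ y < 4 * l, w y ∈ A y) ∧ (fun j => w (4 * l + j)) ∈ B} with hG₀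
  have hG₀m : MeasurableSet G₀ := by
    have h : G₀ = (⋂ y : ℕ, ⋂ _ : y < 4 * l, (fun w : ℕ → Walk => w y) ⁻¹' A y) ∩
        (fun w : ℕ → Walk => fun j => w (4 * l + j)) ⁻¹' B := by
      ext w
      simp only [hG₀, Set.mem_ofPred_eq, Set.mem_inter_iff, Set.mem_iInter, Set.mem_preimage]
    rw [h]
    refine MeasurableSet.inter ?_ ?_
    · exact MeasurableSet.iInter fun y => MeasurableSet.iInter fun _ =>
        (measurable_pi_apply y) (hAm y)
    · have h1 : Measurable (fun w : ℕ → Walk => fun j => w (4 * l + j)) :=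
        measurable_pi_lambda _ fun j => measurable_pi_apply _
      exact h1 hBm
  have hG₀0 : 0 < sysLaw G₀ := by
    rw [hG₀, sysLaw_split (4 * l) A hAm B hBm, pos_iff_ne_zero]
    refine mul_ne_zero ?_ hB0.ne'
    rw [Finset.prod_ne_zero_iff]
    exact fun y _ => (hA0 y).ne'
  have hae : ∀ᵐ w ∂sysLaw, (∀ j i, 0 < (w j i).1) ∧ ∀ T : ℝ, ∃ r : ℕ, ∀ i ≤ r,
      ENNReal.ofReal T < hit (w i) ((r : ℤ) + 1 - i) := sys_posTime.and cut_ae
  obtain ⟨N, hN, hNm, hN0⟩ := exists_measurable_superset_of_null (ae_iff.1 hae)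
  refine ⟨1 + c₁ / β, C₁ / β, G₀ \ N, hG₀m.diff hNm, ?_, ?_⟩
  · rw [measure_sdiff_null hN0]
    exact hG₀0
  · rintro w ⟨hw, hwN⟩
    have hgood : (∀ j i, 0 < (w j i).1) ∧ ∀ T : ℝ, ∃ r : ℕ, ∀ i ≤ r,
        ENNReal.ofReal T < hit (w i) ((r : ℤ) + 1 - i) := by
      by_contra h
      exact hwN (hN h)
    obtain ⟨hwA, hwB⟩ := hw
    have hwA0 := hwA 0 (by omega)
    refine ⟨hgood.1, ?_, ?_, hgood.2⟩
    · refine grow_of hβ hc₁ hC₁ hgood.1 hM4 hwA0.1 fun m => ?_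
      have h1 := hwB.1 m
      rw [Finset.sum_congr rfl fun i _ => GP.Bk_shift w l i]
      exact h1
    · intro j q
      by_cases hj : j < 4 * l
      · exact (hwA j hj).2 q
      · obtain ⟨j', rfl⟩ := Nat.exists_eq_add_of_le (not_lt.1 hj)
        exact hwB.2 j' q

end H949.FG
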