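import Pool.Agent.H949.FG.Defs
import Pool.Agent.H949.FG.Basic
import Pool.Agent.H949.FG.DetU
import Pool.Agent.H949.FG.DetE
import Pool.Agent.H949.FG.GoodPos
set_option autoImplicit false

open MeasureTheory ProbabilityTheory
open scoped ENNReal

namespace H949.FG

/-- There is a frog system. PROOF. `Ω = ℤ → Walk`, `P = Measure.infinitePi (fun _ => walkLaw)`, `X x ω = ω x`;
`Measure.infinitePi_map_eval`, `iIndepFun_infinitePi`. -/
theorem exists_frogSystem : ∃ (Ω : Type) (_ : MeasurableSpace Ω) (P : Measure Ω) (_ : IsProbabilityMeasure P)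
    (X : ℤ → Ω → Walk), IsFrogSystem P X := by
  refine ⟨ℤ → Walk, inferInstance, Measure.infinitePi (fun _ : ℤ => walkLaw), inferInstance,
    fun x ω => ω x, ?_, ?_, ?_⟩
  · intro x; exact measurable_pi_apply x
  · intro x; exact Measure.infinitePi_map_eval (fun _ : ℤ => walkLaw) x
  · exact iIndepFun_infinitePi (P := fun _ : ℤ => walkLaw) (X := fun _ (w : Walk) => w)
      (fun _ => measurable_id)

/-- The law of the walkers seen from an injectively indexed family, after a law preserving map. -/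
lemma law_seq {Ω : Type*} [MeasurableSpace Ω] {P : Measure Ω}
    [IsProbabilityMeasure P] {X : ℤ → Ω → Walk} (hX : IsFrogSystem P X) {f : ℕ → ℤ}
    (hf : Function.Injective f) {g : Walk → Walk} (hg : Measurable g) (hgl : walkLaw.map g = walkLaw) :
    P.map (fun ω (j : ℕ) => g (X (f j) ω)) = sysLaw := by
  have h1 : iIndepFun (fun j : ℕ => X (f j)) P := hX.indep.precomp hf
  have h2 : iIndepFun (fun j : ℕ => g ∘ X (f j)) P := h1.comp (fun _ => g) (fun _ => hg)
  have h3 := h2.map_fun_eq_infinitePi_map (fun j => hg.comp (hX.meas (f j)))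
  have h4 : ∀ j : ℕ, P.map (g ∘ X (f j)) = walkLaw := by
    intro j
    rw [← Measure.map_map hg (hX.meas (f j)), hX.law, hgl]
  simp only [h4] at h3
  exact h3

/-- Two sequences of walkers with disjoint index sets are independent. -/
lemma indep_seq {Ω : Type*} [MeasurableSpace Ω] {P : Measure Ω}
    [IsProbabilityMeasure P] {X : ℤ → Ω → Walk} (hX : IsFrogSystem P X) {f f' : ℕ → ℤ}
    {g g' : Walk → Walk} (hg : Measurable g) (hg' : Measurable g')
    (hd : Disjoint (Set.range f) (Set.range f')) :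
    IndepFun (fun ω (j : ℕ) => g (X (f j) ω)) (fun ω (j : ℕ) => g' (X (f' j) ω)) P := by
  have h1 : iIndep (fun x : ℤ => MeasurableSpace.comap (X x) inferInstance) P := hX.indep
  have h2 := indep_iSup_of_disjoint (fun x => (hX.meas x).comap_le) h1 hd
  have key : ∀ (f : ℕ → ℤ) (g : Walk → Walk), Measurable g →
      MeasurableSpace.comap (fun ω (j : ℕ) => g (X (f j) ω)) inferInstance ≤
        ⨆ i ∈ Set.range f, MeasurableSpace.comap (X i) inferInstance := by
    intro f g hg
    rw [← measurable_iff_comap_le]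
    refine @measurable_pi_lambda _ _ _ (_) _ _ fun j => ?_
    have h3 : Measurable[MeasurableSpace.comap (X (f j)) inferInstance] (X (f j)) :=
      comap_measurable _
    have h4 : MeasurableSpace.comap (X (f j)) inferInstance ≤
        ⨆ i ∈ Set.range f, MeasurableSpace.comap (X i) inferInstance :=
      le_iSup₂_of_le (f j) ⟨j, rfl⟩ le_rfl
    exact hg.comp (h3.mono h4 le_rfl)
  exact indep_of_indep_of_le_left (indep_of_indep_of_le_right h2 (key f' g' hg')) (key f g hg)

/-- Coexistence has positive probability. -/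
theorem coexist {β : ℝ} (hβ : 0 < β) (hβ1 : β ≤ 1) {Ω : Type*} [MeasurableSpace Ω] (P : Measure Ω)
    [IsProbabilityMeasure P] (X : ℤ → Ω → Walk) (hX : IsFrogSystem P X) :
    ∃ E : Set Ω, MeasurableSet E ∧ 0 < P E ∧ ∀ ω ∈ E,
      (∃ (t : ℤ → ℝ≥0∞) (c : ℤ → Bool), IsOutcome β 1 (fun x => X x ω) t c) ∧
      ∀ (t : ℤ → ℝ≥0∞) (c : ℤ → Bool), IsOutcome β 1 (fun x => X x ω) t c →
        (∀ x, t x ≠ ∞) ∧ (∀ x ≤ 0, c x = false) ∧ (∀ x, 1 ≤ x → c x = true) := by
  obtain ⟨c₀, C, G, hGm, hGp, hG⟩ := good_pos hβ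
  have hR := law_seq hX (f := fun j : ℕ => 1 + (j : ℤ)) (fun a b h => by simpa using h)
    (g := id) measurable_id (by simp)
  have hL := law_seq hX (f := fun j : ℕ => -(j : ℤ)) (fun a b h => by simpa using h)
    (g := mir) measurable_mir map_mir
  have hI := indep_seq hX (f := fun j : ℕ => 1 + (j : ℤ)) (f' := fun j : ℕ => -(j : ℤ))
    (g := id) (g' := mir) measurable_id measurable_mir (by
      rw [Set.disjoint_left]
      rintro x ⟨a, rfl⟩ ⟨b, hb⟩
      simp only at hb
      omega)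
  have mR : Measurable (fun ω (j : ℕ) => id (X (1 + (j : ℤ)) ω)) :=
    measurable_pi_lambda _ fun j => hX.meas _
  have mL : Measurable (fun ω (j : ℕ) => mir (X (-(j : ℤ)) ω)) :=
    measurable_pi_lambda _ fun j => measurable_mir.comp (hX.meas _)
  refine ⟨(fun ω (j : ℕ) => id (X (1 + (j : ℤ)) ω)) ⁻¹' G ∩ (fun ω (j : ℕ) => mir (X (-(j : ℤ)) ω)) ⁻¹' G,
    (mR hGm).inter (mL hGm), ?_, ?_⟩
  · rw [hI.measure_inter_preimage_eq_mul _ _ hGm hGm, ← Measure.map_apply mR hGm,
      ← Measure.map_apply mL hGm, hR, hL]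
    exact ENNReal.mul_pos hGp.ne' hGp.ne'
  · rintro ω ⟨h1, h2⟩
    have g1 : Good β c₀ C (fun j => (fun x => X x ω) (1 + j)) := hG _ h1
    have g2 : Good β c₀ C (fun j => mir ((fun x => X x ω) (-(j : ℤ)))) := hG _ h2
    exact ⟨det_exists hβ hβ1 g1 g2, fun t c h => det_unique hβ hβ1 g1 g2 h⟩

end H949.FG
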